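import Mathlib

set_option autoImplicit false

/-!
Cubic plane maps with exactly three Hamilton cycles (project MP_16e137_co).
Definitions shared by all modules.
-/

namespace Pool.Agent.Helper17.CT

/-- Exactly one of the three booleans is false. -/
def One (p q r : Bool) : Prop :=
  (p = false ∧ q = true ∧ r = true) ∨ (p = true ∧ q = false ∧ r = true) ∨
    (p = true ∧ q = true ∧ r = false)

/-- One step inside the dart set `U`: cross the edge, or go to another dart at the same vertex. -/
def Step {D : Type} (s a : D → D) (U : D → Bool) (x y : D) : Prop :=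
  U x = true ∧ U y = true ∧ (y = a x ∨ y = s x ∨ y = s (s x))

/-- Reachability inside the dart set `U`. -/
def Conn {D : Type} (s a : D → D) (U : D → Bool) : D → D → Prop :=
  Relation.ReflTransGen (Step s a U)

/-- A cubic map: `D` is the set of darts (half-edges), `s` is the rotation around the vertices
(all orbits have size three), `a` exchanges the two darts of an edge. -/
structure CMap (D : Type) where
  s : D → D
  a : D → D
  s3 : ∀ d, s (s (s d)) = d
  s1 : ∀ d, s d ≠ d
  a2 : ∀ d, a (a d) = d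
  a1 : ∀ d, a d ≠ d

namespace CMap
variable {D : Type} (M : CMap D)

/-- The face permutation. -/
def f (d : D) : D := M.s (M.a d)

/-- `y` lies on the face of `x`. -/
def Face (x y : D) : Prop := ∃ n : ℕ, (M.f)^[n] x = y

/-- `U` is (the set of darts of) a Hamilton cycle. -/
structure IsHam (U : D → Bool) : Prop where
  acl : ∀ d, U (M.a d) = U d
  one : ∀ d, One (U d) (U (M.s d)) (U (M.s (M.s d)))
  conn : ∀ x y, U x = true → U y = true → Conn M.s M.a U x y

/-- `Z` is an even set of edges (an element of the cycle space mod 2). -/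
def Even (Z : D → Bool) : Prop :=
  (∀ d, Z (M.a d) = Z d) ∧ ∀ d, (Z d ^^ Z (M.s d) ^^ Z (M.s (M.s d))) = false

/-- Planarity: every even set of edges is the boundary of a set of faces. -/
def Planar : Prop :=
  ∀ Z : D → Bool, M.Even Z →
    ∃ φ : D → Bool, (∀ d, φ (M.f d) = φ d) ∧ ∀ d, Z d = (φ d ^^ φ (M.a d))

/-- The map has exactly three Hamilton cycles `U 0`, `U 1`, `U 2`. -/
structure Three (U : Fin 3 → D → Bool) : Prop where
  ham : ∀ i, M.IsHam (U i)
  inj : Function.Injective U
  all : ∀ V, M.IsHam V → ∃ i, V = U i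

/-- A colouring form of `Three`: `γ` is a proper 3-edge-colouring and the three sets
`{d | γ d ≠ i}` are exactly the Hamilton cycles. -/
structure Tri (γ : D → Fin 3) : Prop where
  acl : ∀ d, γ (M.a d) = γ d
  prop : ∀ d, γ (M.s d) ≠ γ d
  ham : ∀ i, M.IsHam (fun d => decide (γ d ≠ i))
  all : ∀ V, M.IsHam V → ∃ i, V = fun d => decide (γ d ≠ i)

/-- `X` is a set of vertices (closed under the rotation). -/
def VSet (X : D → Bool) : Prop := ∀ d, X (M.s d) = X d

/-- The number of edges leaving the vertex set `X`. -/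
noncomputable def bd (X : D → Bool) : ℕ := Nat.card {d : D // X d = true ∧ X (M.a d) = false}

/-- Cyclically 4-edge-connected, in the strong form: a vertex set with at most three outgoing
edges, or its complement, has at most one vertex. -/
def Cyc4 : Prop :=
  ∀ X : D → Bool, M.VSet X → M.bd X ≤ 3 →
    (∃ v, ∀ d, X d = true → d = v ∨ d = M.s v ∨ d = M.s (M.s v)) ∨
    (∃ v, ∀ d, X d = false → d = v ∨ d = M.s v ∨ d = M.s (M.s v))

/-- Every vertex set with a vertex inside and a vertex outside has at least three outgoing edges. -/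
def Con3 : Prop :=
  ∀ X : D → Bool, M.VSet X → (∃ d, X d = true) → (∃ d, X d = false) → 3 ≤ M.bd X

end CMap

/-- A cubic pole with `k` labelled ports: the ports are the fixed points of `s` (leaves). -/
structure Pole (H : Type) (k : ℕ) where
  s : H → H
  a : H → H
  port : Fin k → H
  s3 : ∀ d, s (s (s d)) = d
  a2 : ∀ d, a (a d) = d
  a1 : ∀ d, a d ≠ d
  pinj : Function.Injective port
  piff : ∀ h, s h = h ↔ ∃ j, port j = h

namespace Pole
variable {H : Type} {k : ℕ} (N : Pole H k)

/-- A proper 3-edge-colouring of the pole. -/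
structure Col (γ : H → Fin 3) : Prop where
  acl : ∀ d, γ (N.a d) = γ d
  prop : ∀ d, N.s d ≠ d → γ (N.s d) ≠ γ d

/-- Every dart of `O` is connected inside `O` to a port. -/
def Loopless (O : H → Bool) : Prop :=
  ∀ x, O x = true → ∃ j, O (N.port j) = true ∧ Conn N.s N.a O x (N.port j)

/-- A set of darts, closed under `a`, that omits exactly one dart at each cubic vertex. -/
structure Fac (O : H → Bool) : Prop where
  acl : ∀ d, O (N.a d) = O d
  one : ∀ d, N.s d ≠ d → One (O d) (O (N.s d)) (O (N.s (N.s d)))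

/-- A system: a spanning set of disjoint paths between ports. -/
structure Sys (O : H → Bool) : Prop extends Fac N O where
  loopless : N.Loopless O

/-- `b` is the pairing of the ports by the paths of `O`, and `ε` tells for which paths the two
ends get the same colour in an alternate colouring. -/
structure Spec (O : H → Bool) (b : Fin k → Fin k) (ε : Fin k → Bool) : Prop where
  inv : ∀ j, b (b j) = j
  use : ∀ j, O (N.port j) = true ↔ b j ≠ j
  con : ∀ j, O (N.port j) = true → Conn N.s N.a O (N.port j) (N.port (b j))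
  uni : ∀ i j, O (N.port i) = true → Conn N.s N.a O (N.port i) (N.port j) → j = i ∨ j = b i
  eps : ∀ j, ε (b j) = ε j
  alt : ∀ (κ : Fin k → Fin 3) (c : Fin 3), (∀ j, κ j ≠ c ↔ O (N.port j) = true) →
    ((∃ γ : H → Fin 3, N.Col γ ∧ (∀ j, γ (N.port j) = κ j) ∧ ∀ d, γ d ≠ c ↔ O d = true) ↔
      ∀ j, O (N.port j) = true → (κ (b j) = κ j ↔ ε j = true))

end Pole

/-- The state `(b, ε)` is compatible with the port colours `κ` and the colour `c`. -/
def Compat {k : ℕ} (b : Fin k → Fin k) (ε : Fin k → Bool) (κ : Fin k → Fin 3) (c : Fin 3) : Prop :=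
  ∀ j, (κ j ≠ c ↔ b j ≠ j) ∧ (b j ≠ j → (κ (b j) = κ j ↔ ε j = true))

/-- A finite cubic piece with `k` ports `q j` (darts whose edge leaves the piece). -/
structure Inner (I : Type) (k : ℕ) where
  s : I → I
  e : I → I
  q : Fin k → I
  s3 : ∀ x, s (s (s x)) = x
  s1 : ∀ x, s x ≠ x
  e2 : ∀ x, (∀ j, x ≠ q j) → e (e x) = x
  e1 : ∀ x, (∀ j, x ≠ q j) → e x ≠ x
  eq : ∀ x, (∀ j, x ≠ q j) → ∀ j, e x ≠ q j
  qi : Function.Injective q

/-- One step inside `t`, in the piece `F` closed up by the pairing `b` of the ports. -/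
def StepF {I : Type} {k : ℕ} (F : Inner I k) (t : I → Bool) (b : Fin k → Fin k) (x y : I) : Prop :=
  t x = true ∧ t y = true ∧
    (y = F.s x ∨ y = F.s (F.s x) ∨ ((∀ j, x ≠ F.q j) ∧ y = F.e x) ∨ ∃ j, x = F.q j ∧ y = F.q (b j))

/-- `t` together with the pairing `b` is a Hamilton cycle of the closed up piece. -/
structure HamF {I : Type} {k : ℕ} (F : Inner I k) (t : I → Bool) (b : Fin k → Fin k) : Prop where
  ecl : ∀ x, (∀ j, x ≠ F.q j) → t (F.e x) = t x
  one : ∀ x, One (t x) (t (F.s x)) (t (F.s (F.s x)))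
  use : ∀ j, t (F.q j) = true ↔ b j ≠ j
  conn : ∀ x y, t x = true → t y = true → Relation.ReflTransGen (StepF F t b) x y

/-- The piece `F` sits in the cubic map `M`. -/
structure Emb {I : Type} {k : ℕ} (F : Inner I k) {D : Type} (M : CMap D) where
  ι : I → D
  inj : Function.Injective ι
  hs : ∀ x, ι (F.s x) = M.s (ι x)
  he : ∀ x, (∀ j, x ≠ F.q j) → ι (F.e x) = M.a (ι x)

namespace Emb
variable {I : Type} {k : ℕ} {F : Inner I k} {D : Type} {M : CMap D} (E : Emb F M)

/-- The darts of the outer pole: darts outside of the piece, and the port darts. -/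
def HSet : Set D := {d | (∀ x, E.ι x ≠ d) ∨ ∃ j, E.ι (F.q j) = d}

lemma a_mem {d : D} (h : d ∈ E.HSet) : M.a d ∈ E.HSet := by
  by_cases hx : ∃ x, E.ι x = M.a d
  · obtain ⟨x, hx⟩ := hx
    by_cases hq : ∃ j, x = F.q j
    · obtain ⟨j, rfl⟩ := hq
      exact Or.inr ⟨j, hx⟩
    · push Not at hq
      have h1 := E.he x hq
      rw [hx, M.a2] at h1
      rcases h with h | ⟨j, h⟩
      · exact absurd h1 (h _)
      · rw [← h] at h1
        exact absurd (E.inj h1) (F.eq x hq j)
  · push Not at hx
    exact Or.inl hx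

open Classical in
/-- The outer pole of an embedded piece. The port dart `E.ι (F.q j)` plays the role of the
`j`-th leaf. -/
noncomputable def outer : Pole E.HSet k where
  s := fun d => if h : ∀ x, E.ι x ≠ d.1 then ⟨M.s d.1, Or.inl (fun x hx => h (F.s (F.s x)) (by
      rw [E.hs, E.hs, hx, M.s3]))⟩ else d
  a := fun d => ⟨M.a d.1, E.a_mem d.2⟩
  port := fun j => ⟨E.ι (F.q j), Or.inr ⟨j, rfl⟩⟩
  s3 := by
    rintro ⟨d, hd⟩
    by_cases h : ∀ x, E.ι x ≠ d
    · have h1 : ∀ x, E.ι x ≠ M.s d := fun x hx => h (F.s (F.s x)) (by rw [E.hs, E.hs, hx, M.s3])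
      have h2 : ∀ x, E.ι x ≠ M.s (M.s d) := fun x hx => h (F.s x) (by rw [E.hs, hx, M.s3])
      simp only [h, h1, h2, not_false_eq_true, implies_true, dite_true, ne_eq]
      exact Subtype.ext (M.s3 d)
    · simp only [h, dite_false]
  a2 := fun d => Subtype.ext (M.a2 d.1)
  a1 := fun d h => M.a1 d.1 (congrArg Subtype.val h)
  pinj := fun i j h => F.qi (E.inj (congrArg Subtype.val h))
  piff := by
    rintro ⟨d, hd⟩
    by_cases h : ∀ x, E.ι x ≠ d
    · simp only [h, not_false_eq_true, implies_true, dite_true, ne_eq]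
      constructor
      · intro h'
        exact absurd (congrArg Subtype.val h') (M.s1 d)
      · rintro ⟨j, hj⟩
        exact absurd (congrArg Subtype.val hj) (h _)
    · simp only [h, dite_false, true_iff]
      rcases hd with hd | ⟨j, hj⟩
      · exact absurd hd h
      · exact ⟨j, Subtype.ext hj⟩

open Classical in
/-- The union of a system of the piece and a system of the outer pole. -/
noncomputable def glue (t : I → Bool) (O : E.HSet → Bool) (d : D) : Bool :=
  if h : ∃ x, E.ι x = d then t h.choose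
  else O ⟨d, Or.inl (fun x hx => h ⟨x, hx⟩)⟩

end Emb

/-- The outer boundary of the piece `F`, cut open: `r 0, ..., r (R-1)` are the forward darts at the
boundary vertices; if `u t` the third dart at `r t` goes into the piece, otherwise it is a port.
`τ j` is the position of port `j`. -/
structure Ring {I : Type} {k : ℕ} (F : Inner I k) (R : ℕ) (r : ℕ → I) (u : ℕ → Bool)
    (τ : Fin k → ℕ) : Prop where
  np : ∀ t, t + 1 < R → ∀ j, r t ≠ F.q j
  next : ∀ t, t + 1 < R → F.e (r t) = if u (t + 1) then F.s (r (t + 1)) else F.s (F.s (r (t + 1)))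
  pq : ∀ j, F.q j = F.s (r (τ j))
  pu : ∀ j, u (τ j) = false
  pR : ∀ j, τ j < R
  mono : StrictMono τ
  dist : ∀ t t', t < R → t' < R →
    (r t' = r t ∨ r t' = F.s (r t) ∨ r t' = F.s (F.s (r t))) → t' = t

/-- What the graph outside of an embedded piece `F` provides, if the whole plane cubic map has
exactly three Hamilton cycles. -/
structure Data {I : Type} {k : ℕ} (F : Inner I k) where
  Ω : Type
  fin : Finite Ω
  b : Ω → Fin k → Fin k
  ε : Ω → Fin k → Bool
  inv : ∀ O j, b O (b O j) = j
  eps : ∀ O j, ε O (b O j) = ε O j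
  nc : ∀ O (i j l m : Fin k), i < j → j < l → l < m → b O i = l → b O j = m → False
  par : ∀ (κ : Fin k → Fin 3) (c c' : Fin 3),
    Nat.card {O : Ω // Compat (b O) (ε O) κ c} ≡ Nat.card {O : Ω // Compat (b O) (ε O) κ c'} [MOD 2]
  γ : I → Fin 3
  γs : ∀ x, γ (F.s x) ≠ γ x
  γe : ∀ x, (∀ j, x ≠ F.q j) → γ (F.e x) = γ x
  T : Fin 3 → Ω
  comp : ∀ i, Compat (b (T i)) (ε (T i)) (fun j => γ (F.q j)) i
  ham : ∀ i, HamF F (fun x => decide (γ x ≠ i)) (b (T i))
  all : ∀ O t, HamF F t (b O) → ∃ i, O = T i ∧ t = fun x => decide (γ x ≠ i)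
  cst : (∃ j j', γ (F.q j) ≠ γ (F.q j')) ∨
    (∃ m : Fin k → Fin k, (∀ j, m (m j) = j) ∧ (∀ j, m j ≠ j) ∧
      (∀ O j, b O j = j ∨ b O j = m j) ∧
      ∀ b' : Fin k → Fin k, (∀ j, b' (b' j) = j) → (∀ j, b' j = j ∨ b' j = m j) → ∃ O, b O = b')

namespace CMap
variable {D : Type} (M : CMap D)

/-- Two darts at the same vertex. -/
def VEq (x y : D) : Prop := y = x ∨ y = M.s x ∨ y = M.s (M.s x)

/-- No loops and no parallel edges. -/
def Simple : Prop :=
  (∀ d, ¬ M.VEq d (M.a d)) ∧ ∀ d d', M.VEq d d' → M.VEq (M.a d) (M.a d') → d = d'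

/-- `M'` is obtained from `M` by contracting the complement of the vertex set `X` to a single
vertex; the darts of `M'` are the darts in `X` and the outer darts of the edges leaving `X`. -/
structure IsContr (X : D → Bool) (M' : CMap {d : D // X d = true ∨ X (M.a d) = true}) : Prop where
  ha : ∀ d, (M'.a d).1 = M.a d.1
  hs : ∀ d, X d.1 = true → (M'.s d).1 = M.s d.1
  star : ∀ d d', X d.1 = false → X d'.1 = false → M'.VEq d d'
  ret : ∀ d, ∃ n, 0 < n ∧ (M'.f d).1 = (M.f)^[n] d.1

/-- One step of the construction of the class of iterated triangle replacements: `f` contracts a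
triangle of `A` to the vertex `v` of `B`. This is the step of the frozen statement. -/
def TriStep {m n : ℕ} (A : SimpleGraph (Fin m)) (B : SimpleGraph (Fin n)) : Prop :=
  ∃ (f : Fin m → Fin n) (v : Fin n),
    (f ⁻¹' ({v} : Set (Fin n))).ncard = 3 ∧
    (∀ w : Fin n, w ≠ v → (f ⁻¹' ({w} : Set (Fin n))).ncard = 1) ∧
    (∀ x y : Fin m, A.Adj x y → f x = f y ∨ B.Adj (f x) (f y)) ∧
    (∀ x y : Fin m, x ≠ y → f x = v → f y = v → A.Adj x y) ∧
    (∀ a b : Fin n, B.Adj a b → ∃! e : Sym2 (Fin m), e ∈ A.edgeSet ∧ Sym2.map f e = s(a, b))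

/-- The map `M` is (labelled by `v`) the last graph of a sequence of triangle replacements
starting from the complete graph on four vertices. -/
def Stk : Prop :=
  ∃ (n : ℕ) (Γ : ∀ k : ℕ, SimpleGraph (Fin (4 + 2 * k))),
    Γ 0 = (⊤ : SimpleGraph (Fin (4 + 2 * 0))) ∧
    (∀ (k : ℕ) (x : Fin (4 + 2 * k)), ((Γ k).neighborSet x).ncard = 3) ∧
    (∀ k : ℕ, k < n → TriStep (Γ (k + 1)) (Γ k)) ∧
    ∃ v : D → Fin (4 + 2 * n), Function.Surjective v ∧ (∀ d d', v d = v d' ↔ M.VEq d d') ∧
      ∀ x y, (Γ n).Adj x y ↔ ∃ d, v d = x ∧ v (M.a d) = y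

end CMap

end Pool.Agent.Helper17.CT
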