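import Pool.Agent.Helper10.CT.NcLemma
import Pool.Agent.Helper15.CT.Contr
import Pool.Agent.Helper20.CT.ExistsData
import Pool.Agent.Helper28.CT.StkStep
import Pool.Agent.Helper29.CT.Parity
import Pool.Agent.Helper33.CT.Cyc
import Pool.Agent.Helper42.CT.Graph
import Pool.Agent.Helper58.CT.Smith
import Pool.Agent.Helper58.CT.StkBase
import Pool.Agent.Helper63.CT.M13
import Pool.Agent.Helper75.CT.Contr
import Pool.Agent.Helper75.CT.ContrPlanar
import Pool.Agent.Helper75.CT.Period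
import Pool.Agent.Helper78.CT.SmallFace
import Pool.Agent.Helper97.CT.Euler
import Pool.Agent.Helper32.CT.EmbRing

set_option autoImplicit false

namespace Pool.Agent.Helper17.CT
open Function

section
variable {I : Type} {k : ℕ} {F : Inner I k} {D : Type} {M : CMap D}

/-- CT-15 -/
theorem exists_data (E : Emb F M) [Finite D] [Nonempty I] (hp : M.Planar) (γ : D → Fin 3) (hT : M.Tri γ) {R : ℕ}
    {r : ℕ → I} {u : ℕ → Bool} {τ : Fin k → ℕ} (hR : Ring F R r u τ) :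
    Nonempty (Data F) :=
  exists_data_of E γ hT (exists_spec E.outer) (parity_law E.outer) (sys_of_ham E) (hamF_of_ham E)
    (glue_inner E) (glue_outer E) (glue_ham E) (nc_lemma E hp hR)

end

/-- the wheel with hub length `c` and neighbour lengths `ns` is excluded -/
def Good (c : ℕ) (ns : List ℕ) : Prop :=
  ∃ (F : Code) (hF : CodeOK F), F.c = c ∧ F.ns = ns ∧ okIdx F = true ∧
    (Data (piece F hF) → False)

/-- the list of wheels up to rotation -/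
def necks : List (ℕ × List ℕ) := [
  (4, [4, 4, 4, 4]),
  (4, [4, 4, 4, 5]),
  (4, [4, 4, 4, 6]),
  (4, [4, 4, 5, 5]),
  (4, [4, 4, 5, 6]),
  (4, [4, 4, 6, 5]),
  (4, [4, 4, 6, 6]),
  (4, [4, 5, 4, 5]),
  (4, [4, 5, 4, 6]),
  (4, [4, 5, 5, 5]),
  (4, [4, 5, 5, 6]),
  (4, [4, 5, 6, 5]),
  (4, [4, 5, 6, 6]),
  (4, [4, 6, 4, 6]),
  (4, [4, 6, 5, 5]),
  (4, [4, 6, 5, 6]),
  (4, [4, 6, 6, 5]),
  (4, [4, 6, 6, 6]),
  (4, [5, 5, 5, 5]),
  (4, [5, 5, 5, 6]),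
  (4, [5, 5, 6, 6]),
  (4, [5, 6, 5, 6]),
  (4, [5, 6, 6, 6]),
  (4, [6, 6, 6, 6]),
  (5, [4, 4, 4, 4, 4]),
  (5, [4, 4, 4, 4, 5]),
  (5, [4, 4, 4, 4, 6]),
  (5, [4, 4, 4, 5, 5]),
  (5, [4, 4, 4, 5, 6]),
  (5, [4, 4, 4, 6, 5]),
  (5, [4, 4, 4, 6, 6]),
  (5, [4, 4, 5, 4, 5]),
  (5, [4, 4, 5, 4, 6]),
  (5, [4, 4, 5, 5, 5]),
  (5, [4, 4, 5, 5, 6]),
  (5, [4, 4, 5, 6, 5]),
  (5, [4, 4, 5, 6, 6]),
  (5, [4, 4, 6, 4, 5]),
  (5, [4, 4, 6, 4, 6]),
  (5, [4, 4, 6, 5, 5]),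
  (5, [4, 4, 6, 5, 6]),
  (5, [4, 4, 6, 6, 5]),
  (5, [4, 4, 6, 6, 6]),
  (5, [4, 5, 4, 5, 5]),
  (5, [4, 5, 4, 5, 6]),
  (5, [4, 5, 4, 6, 5]),
  (5, [4, 5, 4, 6, 6]),
  (5, [4, 5, 5, 4, 6]),
  (5, [4, 5, 5, 5, 5]),
  (5, [4, 5, 5, 5, 6]),
  (5, [4, 5, 5, 6, 5]),
  (5, [4, 5, 5, 6, 6]),
  (5, [4, 5, 6, 4, 6]),
  (5, [4, 5, 6, 5, 5]),
  (5, [4, 5, 6, 5, 6]),
  (5, [4, 5, 6, 6, 5]),
  (5, [4, 5, 6, 6, 6]),
  (5, [4, 6, 4, 6, 5]),
  (5, [4, 6, 4, 6, 6]),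
  (5, [4, 6, 5, 5, 5]),
  (5, [4, 6, 5, 5, 6]),
  (5, [4, 6, 5, 6, 5]),
  (5, [4, 6, 5, 6, 6]),
  (5, [4, 6, 6, 5, 5]),
  (5, [4, 6, 6, 5, 6]),
  (5, [4, 6, 6, 6, 5]),
  (5, [4, 6, 6, 6, 6]),
  (5, [5, 5, 5, 5, 5]),
  (5, [5, 5, 5, 5, 6]),
  (5, [5, 5, 5, 6, 6]),
  (5, [5, 5, 6, 5, 6]),
  (5, [5, 5, 6, 6, 6]),
  (5, [5, 6, 5, 6, 6]),
  (5, [5, 6, 6, 6, 6]),
  (5, [6, 6, 6, 6, 6])]

section
variable {D : Type} (M : CMap D)

lemma f_inj' : Function.Injective M.f := by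
  intro x y h
  have h1 : M.s (M.a x) = M.s (M.a y) := h
  have h2 := congrArg (fun z => M.s (M.s z)) h1
  simp only [M.s3] at h2
  have h3 := congrArg M.a h2
  simpa only [M.a2] using h3

lemma good_false [Finite D] (hp : M.Planar) (γ : D → Fin 3) (hT : M.Tri γ) (h4 : M.Cyc4)
    (c : ℕ) (ns : List ℕ) (hG : Good c ns) (hc3 : 3 ≤ c) (d : D)
    (hc : minimalPeriod M.f d = c)
    (hn : ∀ i < c, minimalPeriod M.f (M.a ((M.f)^[i] d)) = getN ns i) : False := by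
  obtain ⟨F, hF, h1, h2, hI, hD⟩ := hG
  have hb : ∀ d, ¬ M.Face d (M.a d) := fun d => not_face_a M hp γ hT d
  have hc3' : M.Con3 := con3_of_tri M γ hT
  obtain ⟨w1, w2, w3⟩ := wheel_inj M hp hc3' h4 hb d c hc hc3 (getN ns) hn
  subst h1 h2
  obtain ⟨E⟩ := emb_of_code F hF hI M d hc hn w1 w2 w3
  obtain ⟨R, r, u, τ, hR⟩ := ring_of_code F hF hI
  have : Nonempty (Fin (3 * F.n)) := ⟨⟨0, by have := hF.n2; omega⟩⟩
  obtain ⟨Dt⟩ := exists_data E hp γ hT hR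
  exact hD Dt

lemma rot4 : ∀ x0 ∈ [4, 5, 6], ∀ x1 ∈ [4, 5, 6], ∀ x2 ∈ [4, 5, 6], ∀ x3 ∈ [4, 5, 6],
    (4, [x0, x1, x2, x3]) ∈ necks ∨ (4, [x1, x2, x3, x0]) ∈ necks ∨
    (4, [x2, x3, x0, x1]) ∈ necks ∨ (4, [x3, x0, x1, x2]) ∈ necks := by
  decide +kernel

lemma rot5 : ∀ x0 ∈ [4, 5, 6], ∀ x1 ∈ [4, 5, 6], ∀ x2 ∈ [4, 5, 6], ∀ x3 ∈ [4, 5, 6],
    ∀ x4 ∈ [4, 5, 6],
    (5, [x0, x1, x2, x3, x4]) ∈ necks ∨ (5, [x1, x2, x3, x4, x0]) ∈ necks ∨
    (5, [x2, x3, x4, x0, x1]) ∈ necks ∨ (5, [x3, x4, x0, x1, x2]) ∈ necks ∨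
    (5, [x4, x0, x1, x2, x3]) ∈ necks := by
  decide +kernel

lemma period_shift [Finite D] (d : D) (r : ℕ) :
    minimalPeriod M.f ((M.f)^[r] d) = minimalPeriod M.f d := by
  have hper : d ∈ periodicPts M.f := (f_inj' M).mem_periodicPts d
  exact minimalPeriod_apply_iterate hper r

/-- local form: a face of length 4 or 5 has a neighbouring face of length at least 7 -/
theorem local7_of (hG : ∀ p ∈ necks, Good p.1 p.2) [Finite D] (hp : M.Planar) (γ : D → Fin 3)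
    (hT : M.Tri γ) (h4 : M.Cyc4) (hD : 12 < Nat.card D) (d : D)
    (hd : minimalPeriod M.f d ≤ 5) : ∃ i, 7 ≤ minimalPeriod M.f (M.a ((M.f)^[i] d)) := by
  by_contra hcon
  push Not at hcon
  have hc3' : M.Con3 := con3_of_tri M γ hT
  have hge : ∀ x, 4 ≤ minimalPeriod M.f x := fun x => face_ge M hc3' h4 hD x
  set n : ℕ → ℕ := fun i => minimalPeriod M.f (M.a ((M.f)^[i] d)) with hn
  have hn46 : ∀ i, n i ∈ [4, 5, 6] := by
    intro i
    have h1 := hge (M.a ((M.f)^[i] d))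
    have h2 := hcon i
    have h3 : n i = 4 ∨ n i = 5 ∨ n i = 6 := by
      simp only [hn]; omega
    rcases h3 with h | h | h <;> simp [h]
  set c := minimalPeriod M.f d with hc
  have hfc : (M.f)^[c] d = d := iterate_minimalPeriod
  have hmod : ∀ i, n i = n (i % c) := by
    intro i
    simp only [hn]
    rw [← iterate_mod_minimalPeriod_eq]
  have key : ∀ r (ns : List ℕ), (c, ns) ∈ necks → (∀ i < c, getN ns i = n (r + i)) → False := by
    intro r ns hm hns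
    apply good_false M hp γ hT h4 c ns (hG _ hm) (by have := hge d; omega) ((M.f)^[r] d)
      (by rw [period_shift])
    intro i hi
    rw [hns i hi, hn]
    simp only
    rw [← iterate_add_apply, add_comm]
  have hc45 : c = 4 ∨ c = 5 := by
    have := hge d
    omega
  rcases hc45 with h | h
  · rw [h] at key hmod
    have e4 : n 4 = n 0 := by rw [hmod 4]
    have e5 : n 5 = n 1 := by rw [hmod 5]
    have e6 : n 6 = n 2 := by rw [hmod 6]
    rcases rot4 (n 0) (hn46 0) (n 1) (hn46 1) (n 2) (hn46 2) (n 3) (hn46 3) with h | h | h | h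
    · exact key 0 _ h (by intro i hi; interval_cases i <;> simp [getN])
    · exact key 1 _ h (by intro i hi; interval_cases i <;> simp [getN, e4])
    · exact key 2 _ h (by intro i hi; interval_cases i <;> simp [getN, e4, e5])
    · exact key 3 _ h (by intro i hi; interval_cases i <;> simp [getN, e4, e5, e6])
  · rw [h] at key hmod
    have e5 : n 5 = n 0 := by rw [hmod 5]
    have e6 : n 6 = n 1 := by rw [hmod 6]
    have e7 : n 7 = n 2 := by rw [hmod 7]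
    have e8 : n 8 = n 3 := by rw [hmod 8]
    rcases rot5 (n 0) (hn46 0) (n 1) (hn46 1) (n 2) (hn46 2) (n 3) (hn46 3) (n 4) (hn46 4)
      with h | h | h | h | h
    · exact key 0 _ h (by intro i hi; interval_cases i <;> simp [getN])
    · exact key 1 _ h (by intro i hi; interval_cases i <;> simp [getN, e5])
    · exact key 2 _ h (by intro i hi; interval_cases i <;> simp [getN, e5, e6])
    · exact key 3 _ h (by intro i hi; interval_cases i <;> simp [getN, e5, e6, e7])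
    · exact key 4 _ h (by intro i hi; interval_cases i <;> simp [getN, e5, e6, e7, e8])

end

end Pool.Agent.Helper17.CT
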