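import Pool.Agent.Helper17.CT.Defs

set_option autoImplicit false

/-!
The finite checker: coded wheels, enumeration of colourings, non-crossing pairings and the parity
certificates. Everything is evaluated by the kernel on natural numbers.
-/

namespace Pool.Agent.Helper17.CT

/-- digits of coded arrays -/
def d2 (a i : ℕ) : ℕ := Nat.mod (Nat.shiftRight a (Nat.mul 2 i)) 4
def d4 (a i : ℕ) : ℕ := Nat.mod (Nat.shiftRight a (Nat.mul 4 i)) 16
def d6 (a i : ℕ) : ℕ := Nat.mod (Nat.shiftRight a (Nat.mul 7 i)) 128
/-- bits -/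
def tb (a i : ℕ) : Bool := Nat.beq (Nat.mod (Nat.shiftRight a i) 2) 1

/-- A coded wheel: hub of length `c`, neighbouring faces of lengths `ns`, `n` vertices, `k` ports.
Darts are `x < 3 * n`, the vertex of `x` is `x / 3`. `E` is the edge involution (7 bits per dart),
`P` is (4 bits per dart) the number of the port plus one or zero, `Q` the port darts (7 bits). -/
structure Code where
  c : ℕ
  ns : List ℕ
  idx : List (ℕ × ℕ)
  n : ℕ
  k : ℕ
  E : ℕ
  P : ℕ
  Q : ℕ

/-- the rotation on coded darts -/
def nx (x : ℕ) : ℕ := Nat.add (Nat.mul 3 (Nat.div x 3)) (Nat.mod (Nat.add (Nat.mod x 3) 1) 3)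

/-- a plain let (no forcing: the kernel caches evaluations) -/
def force {α : Type} (x : ℕ) (g : ℕ → α) : α := g x

/-- the other used dart at the vertex of `x` -/
def oth (u : ℕ → Bool) (x : ℕ) : ℕ := cond (u (nx x)) (nx x) (nx (nx x))

/-- follow the path that enters at the dart `x`; returns the final port and the set of visited
vertices (as a bit mask). -/
def tr (F : Code) (u : ℕ → Bool) : ℕ → ℕ → ℕ → Option (ℕ × ℕ)
  | 0, _, _ => none
  | f + 1, x, cov =>
    force (oth u x) fun y => force (Nat.lor cov (Nat.shiftLeft 1 (Nat.div x 3))) fun cov' =>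
      match d4 F.P y with
      | 0 => force (d6 F.E y) fun x' => tr F u f x' cov'
      | j + 1 => some (j, cov')

/-- all pairs of ports `j` and the total cover: `(m, cov)` with `m` coded by 4 bits per port. -/
def trs (F : Code) (u : ℕ → Bool) : ℕ → ℕ → ℕ → ℕ → Option (ℕ × ℕ)
  | 0, _, m, cov => some (m, cov)
  | f + 1, j, m, cov =>
    cond (u (d6 F.Q j))
      (match tr F u F.n (d6 F.Q j) cov with
        | none => none
        | some (j', cov') => force (Nat.lor m (Nat.shiftLeft j' (Nat.mul 4 j))) fun m' =>
            force (Nat.succ j) fun j1 => trs F u f j1 m' cov')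
      (force (Nat.lor m (Nat.shiftLeft j (Nat.mul 4 j))) fun m' =>
        force (Nat.succ j) fun j1 => trs F u f j1 m' cov)

/-- the orbit of the port `x` under the two pairings `m`, `b` (4 bits per port): returns the mask
of the visited ports. -/
def orb (m b x0 : ℕ) : ℕ → ℕ → ℕ → Option ℕ
  | 0, _, _ => none
  | f + 1, x, acc =>
    force (d4 m x) fun y => force (d4 b y) fun z =>
      force (Nat.lor (Nat.lor acc (Nat.shiftLeft 1 x)) (Nat.shiftLeft 1 y)) fun acc' =>
        cond (Nat.beq z x0) (some acc') (orb m b x0 f z acc')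

/-- the two pairings `m` and `b` of the used ports `U` form a single cycle -/
def sing (k m b U : ℕ) : Bool :=
  match orb m b (Nat.log2 U) k (Nat.log2 U) 0 with
  | none => true
  | some r => Nat.beq r U

/-- same, but reliable in the positive direction -/
def sing' (k m b U : ℕ) : Bool :=
  match orb m b (Nat.log2 U) k (Nat.log2 U) 0 with
  | none => false
  | some r => Nat.beq r U

/-- A system record: dart mask, used ports, pairing. -/
structure Sy where
  T : ℕ
  U : ℕ
  m : ℕ

/-- search tree for systems -/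
inductive Tri' where
  | leaf (l : List Sy)
  | node (l r : Tri')

def Tri'.get (U : ℕ) : Tri' → ℕ → List Sy
  | .leaf l, _ => l
  | .node l r, p => cond (tb U p) (Tri'.get U r (Nat.succ p)) (Tri'.get U l (Nat.succ p))

def allL {α : Type} (g : α → Bool) : List α → Bool
  | [] => true
  | a :: l => and (g a) (allL g l)

def anyL {α : Type} (g : α → Bool) : List α → Bool
  | [] => false
  | a :: l => or (g a) (anyL g l)

def Tri'.all (g : Sy → Bool) : Tri' → Bool
  | .leaf l => allL g l
  | .node l r => and (Tri'.all g l) (Tri'.all g r)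

/-- loop `i = f-1, ..., 0` -/
def allN (g : ℕ → Bool) : ℕ → Bool
  | 0 => true
  | f + 1 => and (g f) (allN g f)

/-- the record `s` is a system of the piece with pairing `s.m` -/
def okSy (F : Code) (s : Sy) : Bool :=
  and (allN (fun v => force (Nat.mul 3 v) fun x =>
      let p := tb s.T x; let q := tb s.T (Nat.succ x); let r := tb s.T (Nat.succ (Nat.succ x))
      cond p (cond q (not r) r) (and q r)) F.n)
  (and (allN (fun x => cond (Nat.beq (d4 F.P x) 0) ((tb s.T (d6 F.E x)) == tb s.T x)
      (tb s.U (Nat.pred (d4 F.P x)) == tb s.T x)) (Nat.mul 3 F.n))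
  (match trs F (fun x => tb s.T x) F.k 0 0 0 with
    | none => false
    | some (m, cov) => and (Nat.beq m s.m) (and (Nat.beq cov (Nat.pred (Nat.shiftLeft 1 F.n)))
        (and (not (Nat.beq s.U 0)) (and (Nat.beq (Nat.shiftRight s.U F.k) 0)
          (Nat.beq (Nat.shiftRight s.T (Nat.mul 3 F.n)) 0))))))

/-- some listed system closes up with `b` to a Hamilton cycle -/
def blk (F : Code) (S : Tri') (U b : ℕ) : Bool :=
  anyL (fun s => and (Nat.beq s.U U) (sing' F.k s.m b U)) (S.get U 0)

/-- some listed system different from `T` closes up with `b` to a Hamilton cycle -/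
def dup (F : Code) (S : Tri') (T U b : ℕ) : Bool :=
  anyL (fun s => and (and (Nat.beq s.U U) (not (Nat.beq s.T T))) (sing' F.k s.m b U)) (S.get U 0)

/-- table of the values of the certificate sums -/
inductive TT where
  | nil
  | leaf (w : ℕ)
  | node (u o s d : TT)

def TT.u : TT → TT
  | .node u _ _ _ => u
  | _ => .nil
def TT.o : TT → TT
  | .node _ o _ _ => o
  | _ => .nil
def TT.s : TT → TT
  | .node _ _ s _ => s
  | _ => .nil
def TT.d : TT → TT
  | .node _ _ _ d => d
  | _ => .nil

/-- all leaves are zero -/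
def TT.zero : TT → Bool
  | .nil => true
  | .leaf w => Nat.beq w 0
  | .node u o s d => and (TT.zero u) (and (TT.zero o) (and (TT.zero s) (TT.zero d)))

def TT.val (w : ℕ) : TT → Bool
  | .leaf w' => Nat.beq w' w
  | _ => true

/-- xor of the first `2 ^ t` blocks of `wd` bits of `x` -/
def fold (wd : ℕ) : ℕ → ℕ → ℕ
  | 0, x => Nat.mod x (Nat.shiftLeft 1 wd)
  | t + 1, x => fold wd t (Nat.xor x (Nat.shiftRight x (Nat.mul wd (Nat.shiftLeft 1 t))))

def getN : List ℕ → ℕ → ℕ
  | [], _ => 0
  | a :: _, 0 => a
  | _ :: l, n + 1 => getN l n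

/-- certificate data: `B` patterns, `wd` lanes (the lane of the pattern `y` is `y % wd`),
`2 ^ t * wd` is at least `3 * B`; pattern bit sets `K1 p`, `K2 p` (colour classes 1 and 2 at port
`p`), weights `W` (bit `c * B + y` for the colour `c` and the pattern `y`). -/
structure Cert where
  B : ℕ
  wd : ℕ
  t : ℕ
  K1 : List ℕ
  K2 : List ℕ
  W : ℕ

/-- the recursion over the ports that checks all non-crossing states. `Us`, `Xs` are the bit sets of
the items (index `c * B + y`): port used, and class of the colour at the port. -/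
def GG (F : Code) (S : Tri') (Us Xs : List ℕ) (W wd t : ℕ) :
    ℕ → ℕ → List ℕ → ℕ → ℕ → ℕ → TT → Bool
  | 0, _, st, U, B, L, T => cond (Nat.beq L 0) T.zero
      (match st with
        | [] => force (fold wd t (Nat.land L W)) fun w =>
            and (T.val w) (or (Nat.beq w 0) (blk F S U B))
        | _ :: _ => true)
  | f + 1, p, st, U, B, L, T => cond (Nat.beq L 0) T.zero
      (force (Nat.land L (getN Us p)) fun L1 => force (Nat.xor L L1) fun L0 =>
        force (Nat.succ p) fun p1 => force (Nat.lor U (Nat.shiftLeft 1 p)) fun U1 =>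
        and (force (Nat.lor B (Nat.shiftLeft p (Nat.mul 4 p))) fun B' =>
            GG F S Us Xs W wd t f p1 st U B' L0 T.u)
        (and (GG F S Us Xs W wd t f p1 (p :: st) U1 B L1 T.o)
          (match st with
            | [] => true
            | q :: st' => force (Nat.land L1 (Nat.xor (getN Xs p) (getN Xs q))) fun Ld =>
                force (Nat.xor L1 Ld) fun Ls =>
                force (Nat.lor B (Nat.lor (Nat.shiftLeft p (Nat.mul 4 q))
                  (Nat.shiftLeft q (Nat.mul 4 p)))) fun B' =>
                and (GG F S Us Xs W wd t f p1 st' U1 B' Ls T.s)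
                  (GG F S Us Xs W wd t f p1 st' U1 B' Ld T.d))))

def zipN (g : ℕ → ℕ → ℕ) : List ℕ → List ℕ → List ℕ
  | a :: l, b :: l' => g a b :: zipN g l l'
  | _, _ => []

/-- items: index `c * B + y` for the pattern `y` and the colour `c` -/
def usOf (B : ℕ) (k1 k2 : ℕ) : ℕ :=
  Nat.lor (Nat.lor (Nat.lor k1 k2)
    (Nat.shiftLeft (Nat.xor (Nat.pred (Nat.shiftLeft 1 B)) k1) B))
    (Nat.shiftLeft (Nat.xor (Nat.pred (Nat.shiftLeft 1 B)) k2) (Nat.mul 2 B))

def xsOf (B : ℕ) (k1 k2 : ℕ) : ℕ :=
  Nat.lor (Nat.lor k2 (Nat.shiftLeft k2 B)) (Nat.shiftLeft k1 (Nat.mul 2 B))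

/-- the pattern bit sets are consistent and the weights of the three colours add up to zero -/
def okCert (Ct : Cert) (k : ℕ) : Bool :=
  and (Nat.beq Ct.K1.length k) (and (Nat.beq Ct.K2.length k)
  (and (allL (fun x => Nat.beq (Nat.shiftRight x Ct.B) 0) Ct.K1)
  (and (allL (fun x => Nat.beq (Nat.shiftRight x Ct.B) 0) Ct.K2)
  (and (allL (fun x => Nat.beq x 0) (zipN Nat.land Ct.K1 Ct.K2))
  (and (Nat.beq (Nat.mod Ct.B Ct.wd) 0) (and (Nat.blt 0 Ct.wd)
  (and (Nat.ble (Nat.mul 3 Ct.B) (Nat.mul Ct.wd (Nat.shiftLeft 1 Ct.t)))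
    (Nat.beq (Nat.xor (Nat.mod Ct.W (Nat.shiftLeft 1 Ct.B))
      (Nat.xor (Nat.mod (Nat.shiftRight Ct.W Ct.B) (Nat.shiftLeft 1 Ct.B))
        (Nat.shiftRight Ct.W (Nat.mul 2 Ct.B)))) 0))))))))

def runG (F : Code) (S : Tri') (Ct : Cert) (T : TT) : Bool :=
  GG F S (zipN (usOf Ct.B) Ct.K1 Ct.K2) (zipN (xsOf Ct.B) Ct.K1 Ct.K2) Ct.W Ct.wd Ct.t
    F.k 0 [] 0 0 (Nat.pred (Nat.shiftLeft 1 (Nat.mul 3 Ct.B))) T

/-- all candidates for the outer pairing `b` of a fixed system `(Tm, U, m)` (non-crossing, single
cycle with `m`, no other system): list of table values, `none` if a value is missing. `G` is the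
colouring code, `r` the number of used ports still to come, `h` the height of the stack. -/
def cands (F : Code) (S : Tri') (G Tm U m : ℕ) :
    ℕ → ℕ → List ℕ → ℕ → ℕ → TT → Option (List ℕ)
  | 0, _, _, _, B, T =>
      cond (sing F.k m B U) (cond (dup F S Tm U B) (some [])
        (match T with
          | .leaf w => some [w]
          | _ => none)) (some [])
  | f + 1, p, st, r, B, T =>
      force (Nat.succ p) fun p1 =>
      cond (tb U p)
        (force (Nat.pred r) fun r1 =>
          match (cond (Nat.ble (Nat.succ st.length) r1)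
              (cands F S G Tm U m f p1 (p :: st) r1 B T.o) (some [])) with
          | none => none
          | some l1 =>
            match st with
            | [] => some l1
            | q :: st' =>
              match (force (Nat.lor B (Nat.lor (Nat.shiftLeft p (Nat.mul 4 q))
                  (Nat.shiftLeft q (Nat.mul 4 p)))) fun B' =>
                  cands F S G Tm U m f p1 st' r1 B'
                    (cond (Nat.beq (d2 G (d6 F.Q p)) (d2 G (d6 F.Q q))) T.s T.d)) with
              | none => none
              | some l2 => some (l1 ++ l2))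
        (force (Nat.lor B (Nat.shiftLeft p (Nat.mul 4 p))) fun B' =>
          cands F S G Tm U m f p1 st r B' T.u)

/-- number of bits below `f` -/
def popc (U : ℕ) : ℕ → ℕ
  | 0 => 0
  | f + 1 => cond (tb U f) (Nat.succ (popc U f)) (popc U f)

/-- mask of the darts of colour different from `i` -/
def maskOf (G i : ℕ) : ℕ → ℕ → ℕ
  | 0, acc => acc
  | f + 1, acc => maskOf G i f (cond (Nat.beq (d2 G f) i) acc (Nat.lor acc (Nat.shiftLeft 1 f)))

/-- mask of the ports of colour different from `i` -/
def portM (F : Code) (G i : ℕ) : ℕ → ℕ → ℕ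
  | 0, acc => acc
  | f + 1, acc => portM F G i f
      (cond (Nat.beq (d2 G (d6 F.Q f)) i) acc (Nat.lor acc (Nat.shiftLeft 1 f)))

/-- the colour class pair `i` contains a closed loop (verified: the port paths do not visit all
vertices) -/
def incov (F : Code) (G i : ℕ) : Bool :=
  match trs F (fun x => not (Nat.beq (d2 G x) i)) F.k 0 0 0 with
  | none => false
  | some (_, cov) => not (Nat.beq cov (Nat.pred (Nat.shiftLeft 1 F.n)))

/-- the table values of the candidates for the colour `i`; `none` if the check failed. -/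
def vals (F : Code) (S : Tri') (T : TT) (G i : ℕ) : Option (List ℕ) :=
  match trs F (fun x => not (Nat.beq (d2 G x) i)) F.k 0 0 0 with
  | none => none
  | some (m, _) =>
      force (portM F G i F.k 0) fun U => force (maskOf G i (Nat.mul 3 F.n) 0) fun Tm =>
        force (popc U F.k) fun r => cands F S G Tm U m F.k 0 [] r 0 T

/-- no sum of three table values is zero -/
def nozero (l0 l1 l2 : List ℕ) : Bool :=
  allL (fun x => allL (fun y => allL (fun z =>
    not (Nat.beq (Nat.xor x (Nat.xor y z)) 0)) l2) l1) l0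

/-- the check of one colouring with non-constant port colours -/
def okCol (F : Code) (S : Tri') (T : TT) (G : ℕ) : Bool :=
  or (incov F G 0) (or (incov F G 1) (or (incov F G 2)
    (match vals F S T G 0 with
    | none => false
    | some l0 =>
      match vals F S T G 1 with
      | none => false
      | some l1 =>
        match vals F S T G 2 with
        | none => false
        | some l2 => nozero l0 l1 l2)))

/-- are all port colours equal? -/
def cstG (F : Code) (G : ℕ) : ℕ → Bool
  | 0 => true
  | f + 1 => and (Nat.beq (d2 G (d6 F.Q f)) (d2 G (d6 F.Q 0))) (cstG F G f)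

/-- the six permutations of the colours as codes with 2 bits per dart -/
def perms6 : List ℕ := [0 + 4 * 1 + 16 * 2, 0 + 4 * 2 + 16 * 1, 1 + 4 * 0 + 16 * 2,
  1 + 4 * 2 + 16 * 0, 2 + 4 * 0 + 16 * 1, 2 + 4 * 1 + 16 * 0]

/-- dart `x` with colour `g` is consistent with the colours `G` of the earlier vertices -/
def okD (F : Code) (G v x g : ℕ) : Bool :=
  cond (Nat.blt (d6 F.E x) (Nat.mul 3 v)) (Nat.beq (d2 G (d6 F.E x)) g) true

/-- enumeration of the proper colourings of the piece -/
def enum (F : Code) (test : ℕ → Bool) : ℕ → ℕ → ℕ → Bool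
  | 0, _, G => test G
  | f + 1, v, G =>
    allL (fun π => cond (and (okD F G v (Nat.mul 3 v) (d2 π 0))
        (and (okD F G v (Nat.add (Nat.mul 3 v) 1) (d2 π 1))
          (okD F G v (Nat.add (Nat.mul 3 v) 2) (d2 π 2))))
      (force (Nat.add G (Nat.shiftLeft π (Nat.mul 6 v))) fun G' =>
        force (Nat.succ v) fun v1 => enum F test f v1 G') true) perms6

/-- closed walk from the dart `x0` (no port used): mask of the visited vertices -/
def cl (F : Code) (u : ℕ → Bool) (x0 : ℕ) : ℕ → ℕ → ℕ → Option ℕ
  | 0, _, _ => none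
  | f + 1, x, cov =>
    force (d6 F.E (oth u x)) fun x' =>
      force (Nat.lor cov (Nat.shiftLeft 1 (Nat.div x 3))) fun cov' =>
        cond (Nat.beq x' x0) (some cov') (cl F u x0 f x' cov')

/-- the portless colour pair `i` has a closed loop that does not visit all vertices -/
def loopy (F : Code) (G i : ℕ) : Bool :=
  let u := fun x => not (Nat.beq (d2 G x) i)
  match cl F u (cond (u 0) 0 1) F.n (cond (u 0) 0 1) 0 with
  | none => false
  | some cov => not (Nat.beq cov (Nat.pred (Nat.shiftLeft 1 F.n)))

/-- all non-crossing pairings of the used ports `U` -/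
def ncE (test : ℕ → Bool) (U : ℕ) : ℕ → ℕ → List ℕ → ℕ → Bool
  | 0, _, st, B => match st with
    | [] => test B
    | _ :: _ => true
  | f + 1, p, st, B => force (Nat.succ p) fun p1 =>
    cond (tb U p)
      (and (ncE test U f p1 (p :: st) B)
        (match st with
          | [] => true
          | q :: st' => force (Nat.lor B (Nat.lor (Nat.shiftLeft p (Nat.mul 4 q))
              (Nat.shiftLeft q (Nat.mul 4 p)))) fun B' => ncE test U f p1 st' B'))
      (force (Nat.lor B (Nat.shiftLeft p (Nat.mul 4 p))) fun B' => ncE test U f p1 st B')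

/-- the restriction of the pairing `B` to the ports in `U` (others fixed) -/
def resB (U B : ℕ) : ℕ → ℕ → ℕ
  | 0, acc => acc
  | f + 1, acc => resB U B f (Nat.lor acc (Nat.shiftLeft (cond (tb U f) (d4 B f) f) (Nat.mul 4 f)))

/-- a system different from the three colour systems that closes up with a part of the perfect
matching `B` -/
def wit (F : Code) (S : Tri') (G B : ℕ) : Bool :=
  not (Tri'.all (fun s => not (and
    (and (not (Nat.beq s.T (maskOf G 0 (Nat.mul 3 F.n) 0)))
      (and (not (Nat.beq s.T (maskOf G 1 (Nat.mul 3 F.n) 0)))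
        (not (Nat.beq s.T (maskOf G 2 (Nat.mul 3 F.n) 0)))))
    (and (allN (fun p => or (not (tb s.U p)) (tb s.U (d4 B p))) F.k)
      (sing' F.k s.m (resB s.U B F.k 0) s.U)))) S)

/-- the check of one colouring with constant port colours; `i`, `j` are the other two colours -/
def okCst (F : Code) (S : Tri') (G c i j : ℕ) : Bool :=
  or (loopy F G c) (or (incov F G i) (or (incov F G j)
    (match trs F (fun x => not (Nat.beq (d2 G x) i)) F.k 0 0 0 with
    | none => false
    | some (m1, _) =>
      match trs F (fun x => not (Nat.beq (d2 G x) j)) F.k 0 0 0 with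
      | none => false
      | some (m2, _) =>
          force (Nat.pred (Nat.shiftLeft 1 F.k)) fun U => ncE (fun B =>
            or (not (and (sing F.k m1 B U) (sing F.k m2 B U))) (wit F S G B)) U F.k 0 [] 0)))

/-- the check of one colouring -/
def okG (F : Code) (S : Tri') (T : TT) (G : ℕ) : Bool :=
  cond (Nat.beq F.k 0) (or (loopy F G 0) (or (loopy F G 1) (loopy F G 2)))
    (cond (cstG F G F.k)
      (match d2 G (d6 F.Q 0) with
        | 0 => okCst F S G 0 1 2
        | 1 => okCst F S G 1 0 2
        | _ => okCst F S G 2 0 1)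
      (okCol F S T G))

/-- the coded piece is well formed -/
def okCode (F : Code) : Bool :=
  and (Nat.blt 1 F.n)
  (and (allN (fun x => cond (Nat.beq (d4 F.P x) 0)
      (and (Nat.blt (d6 F.E x) (Nat.mul 3 F.n)) (and (Nat.beq (d6 F.E (d6 F.E x)) x)
        (and (not (Nat.beq (d6 F.E x) x)) (Nat.beq (d4 F.P (d6 F.E x)) 0))))
      (and (Nat.beq (d6 F.Q (Nat.pred (d4 F.P x))) x)
        (and (Nat.beq (d6 F.E x) x) (Nat.ble (d4 F.P x) F.k)))) (Nat.mul 3 F.n))
    (allN (fun j => and (Nat.blt (d6 F.Q j) (Nat.mul 3 F.n))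
      (Nat.beq (d4 F.P (d6 F.Q j)) (Nat.succ j))) F.k))

/-- the complete check of a wheel -/
def okAll (F : Code) (S : Tri') (Ct : Cert) (T : TT) : Bool :=
  and (okCode F) (and (Tri'.all (okSy F) S) (and (okCert Ct F.k) (and (runG F S Ct T)
    (enum F (okG F S T) (Nat.pred F.n) 1 36))))

/-! ### the wheel structure of a code -/

def getP : List (ℕ × ℕ) → ℕ → ℕ × ℕ
  | [], _ => (0, 0)
  | a :: _, 0 => a
  | _ :: l, n + 1 => getP l n

/-- the pair of darts `x`, `y` is one of the four kinds of edges of a wheel -/
def formE (F : Code) (x y : ℕ) : Bool :=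
  let v := x / 3
  let w := y / 3
  (decide (v < F.c) && decide (x % 3 = 0) && decide (y = 3 * ((v + 1) % F.c) + 2)) ||
  (decide (v < F.c) && decide (x % 3 = 1) && decide (y % 3 = 2) && decide (F.c ≤ w) &&
    decide (getP F.idx (w - F.c) = (v, 2))) ||
  (decide (F.c ≤ v) && decide (x % 3 = 0) && decide (y % 3 = 2) && decide (F.c ≤ w) &&
    decide (getP F.idx (w - F.c) = ((getP F.idx (v - F.c)).1, (getP F.idx (v - F.c)).2 + 1))) ||
  (decide (F.c ≤ v) && decide (x % 3 = 0) && decide (y % 3 = 1) && decide (F.c ≤ w) &&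
    decide ((getP F.idx (v - F.c)).2 + 2 = getN F.ns (getP F.idx (v - F.c)).1) &&
    decide (getP F.idx (w - F.c) = (((getP F.idx (v - F.c)).1 + 1) % F.c, 2)))

/-- the code is the code of the wheel with hub length `F.c` and neighbour lengths `F.ns` -/
def okIdx (F : Code) : Bool :=
  decide (F.n = F.c + F.idx.length) && decide (F.ns.length = F.c) && decide (3 ≤ F.c) &&
  (List.range F.idx.length).all (fun t =>
    decide ((getP F.idx t).1 < F.c) && decide (2 ≤ (getP F.idx t).2) &&
    decide ((getP F.idx t).2 + 2 ≤ getN F.ns (getP F.idx t).1)) &&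
  (List.range F.idx.length).all (fun t => (List.range t).all (fun t' =>
    decide (getP F.idx t' ≠ getP F.idx t))) &&
  (List.range (3 * F.n)).all (fun x => decide (d4 F.P x ≠ 0) || formE F x (d6 F.E x) ||
    formE F (d6 F.E x) x) &&
  (List.range F.idx.length).all (fun t => decide (t + 1 = F.idx.length) ||
    decide (d6 F.E (3 * (F.c + t)) = 3 * (F.c + t + 1) +
      (if (getP F.idx (t + 1)).2 = 2 then 1 else 2))) &&
  (List.range F.idx.length).all (fun t => decide (d4 F.P (3 * (F.c + t)) = 0)) &&
  (List.range F.k).all (fun j => decide (d6 F.Q j % 3 = 1) && decide (F.c ≤ d6 F.Q j / 3) &&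
    decide (d6 F.Q j / 3 < F.n) && decide ((getP F.idx (d6 F.Q j / 3 - F.c)).2 ≠ 2) &&
    (List.range j).all (fun i => decide (d6 F.Q i < d6 F.Q j)))

end Pool.Agent.Helper17.CT
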