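import Pool.Agent.Helper17.CT.MapMain

set_option autoImplicit false

namespace Pool.Agent.Helper17.CT
open Function

section
variable {V : Type} [Fintype V] [DecidableEq V] (G : SimpleGraph V)
variable (ρ : Equiv.Perm G.Dart) (h1 : ∀ d, (ρ d).fst = d.fst) (h2 : ∀ d, ρ d ≠ d)
    (h3 : ∀ v : V, (G.neighborSet v).ncard = 3)

omit [DecidableEq V] in
lemma deg3 [DecidableRel G.Adj] (h3 : ∀ v : V, (G.neighborSet v).ncard = 3) (v : V) :
    G.degree v = 3 := by
  rw [← G.card_neighborSet_eq_degree, ← h3 v, Set.ncard_eq_toFinset_card', Set.toFinset_card]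

omit [DecidableEq V] in
/-- number of darts -/
lemma card_dart (h3 : ∀ v : V, (G.neighborSet v).ncard = 3) :
    Nat.card G.Dart = 3 * Fintype.card V ∧ Nat.card G.Dart = 2 * G.edgeSet.ncard := by
  classical
  have e1 : Fintype.card G.Dart = 3 * Fintype.card V := by
    rw [G.dart_card_eq_sum_degrees]
    simp only [deg3 G h3, Finset.sum_const, Finset.card_univ, smul_eq_mul]
    ring
  have e2 := G.dart_card_eq_twice_card_edges
  have e3 : G.edgeSet.ncard = G.edgeFinset.card := by
    rw [Set.ncard_eq_toFinset_card']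
    rfl
  rw [Nat.card_eq_fintype_card]
  constructor
  · exact e1
  · rw [e3]; exact e2

omit [DecidableEq V] in
lemma four_le (h3 : ∀ v : V, (G.neighborSet v).ncard = 3) [Nonempty V] : 4 ≤ Fintype.card V := by
  classical
  obtain ⟨v⟩ := (inferInstance : Nonempty V)
  have e1 := deg3 G h3 v
  have e2 := G.degree_lt_card_verts v
  omega

lemma conn_of_ham {D : Type} (M : CMap D) (U : D → Bool) (hU : M.IsHam U) (x y : D) :
    Conn M.s M.a (fun _ => true) x y := by
  have mono : ∀ x y, Conn M.s M.a U x y → Conn M.s M.a (fun _ => true) x y := by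
    intro x y h
    have h' : Relation.ReflTransGen (Step M.s M.a U) x y := h
    induction h' with
    | refl => exact Relation.ReflTransGen.refl
    | tail hab hbc ih => exact (ih hab).tail ⟨rfl, rfl, hbc.2.2⟩
  -- every dart is at a vertex with a used dart
  have hx : ∀ x, ∃ x', U x' = true ∧ Conn M.s M.a (fun _ => true) x x' ∧
      Conn M.s M.a (fun _ => true) x' x := by
    intro x
    rcases hU.one x with h | h | h
    · exact ⟨M.s x, h.2.1, Relation.ReflTransGen.single ⟨rfl, rfl, Or.inr (Or.inl rfl)⟩,
        Relation.ReflTransGen.single ⟨rfl, rfl, Or.inr (Or.inr (M.s3 x).symm)⟩⟩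
    · exact ⟨x, h.1, Relation.ReflTransGen.refl, Relation.ReflTransGen.refl⟩
    · exact ⟨x, h.1, Relation.ReflTransGen.refl, Relation.ReflTransGen.refl⟩
  obtain ⟨x', hx1, hx2, _⟩ := hx x
  obtain ⟨y', hy1, _, hy3⟩ := hx y
  exact (hx2.trans (mono _ _ (hU.conn x' y' hx1 hy1))).trans hy3

include h1 h2 h3 in
/-- the map of a plane cubic graph with exactly three Hamilton cycles -/
lemma setup
    (hE : (Fintype.card V : ℤ) - (G.edgeSet.ncard : ℤ) +
      (Nat.card (Quot fun x y : G.Dart => ρ x.symm = y) : ℤ) = 2)
    (hH : {s : Set (Sym2 V) | ∃ (u : V) (p : G.Walk u u),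
      p.IsHamiltonianCycle ∧ s = {e : Sym2 V | e ∈ p.edges}}.ncard = 3) :
    (mapOf G ρ h1 h2 h3).Planar ∧ (∃ γ, (mapOf G ρ h1 h2 h3).Tri γ) ∧ 12 ≤ Nat.card G.Dart ∧
      Nat.card G.Dart = 3 * Fintype.card V := by
  have hfin : Finite G.Dart := by
    classical
    exact Finite.of_fintype _
  obtain ⟨U, hU⟩ := three_of_ncard G ρ h1 h2 h3 hH
  obtain ⟨γ, hγ⟩ := smith (mapOf G ρ h1 h2 h3) U hU
  obtain ⟨c1, c2⟩ := card_dart G h3
  have hne : Nonempty V := by
    have h0 : {s : Set (Sym2 V) | ∃ (u : V) (p : G.Walk u u),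
      p.IsHamiltonianCycle ∧ s = {e : Sym2 V | e ∈ p.edges}}.Nonempty := by
      apply Set.nonempty_of_ncard_ne_zero
      rw [hH]; norm_num
    obtain ⟨s, u, _⟩ := h0
    exact ⟨u⟩
  have c3 := four_le G h3
  refine ⟨?_, ⟨γ, hγ⟩, by omega, c1⟩
  apply planar_of_euler (mapOf G ρ h1 h2 h3)
    (fun x y => conn_of_ham (mapOf G ρ h1 h2 h3) (U 0) (hU.ham 0) x y)
  have e1 : Nat.card (Quot fun x y : G.Dart => (mapOf G ρ h1 h2 h3).f x = y) =
      Nat.card (Quot fun x y : G.Dart => ρ x.symm = y) := rfl
  rw [e1]
  omega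

include h1 h2 h3 in
/-- the class theorem -/
theorem class_of (hG : ∀ p ∈ necks, Good p.1 p.2)
    (hE : (Fintype.card V : ℤ) - (G.edgeSet.ncard : ℤ) +
      (Nat.card (Quot fun x y : G.Dart => ρ x.symm = y) : ℤ) = 2)
    (hF : ∀ d : G.Dart, ∃ n : ℕ, 0 < n ∧ n ≤ 6 ∧ (fun x : G.Dart => ρ x.symm)^[n] d = d)
    (hH : {s : Set (Sym2 V) | ∃ (u : V) (p : G.Walk u u),
      p.IsHamiltonianCycle ∧ s = {e : Sym2 V | e ∈ p.edges}}.ncard = 3) :
    ∃ (n : ℕ) (Γ : ∀ k : ℕ, SimpleGraph (Fin (4 + 2 * k))),
          Γ 0 = (⊤ : SimpleGraph (Fin (4 + 2 * 0))) ∧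
          (∀ (k : ℕ) (x : Fin (4 + 2 * k)), ((Γ k).neighborSet x).ncard = 3) ∧
          (∀ k : ℕ, k < n →
            ∃ (f : Fin (4 + 2 * (k + 1)) → Fin (4 + 2 * k)) (v : Fin (4 + 2 * k)),
              (f ⁻¹' ({v} : Set (Fin (4 + 2 * k)))).ncard = 3 ∧
              (∀ w : Fin (4 + 2 * k), w ≠ v →
                (f ⁻¹' ({w} : Set (Fin (4 + 2 * k)))).ncard = 1) ∧
              (∀ x y : Fin (4 + 2 * (k + 1)),
                (Γ (k + 1)).Adj x y → f x = f y ∨ (Γ k).Adj (f x) (f y)) ∧
              (∀ x y : Fin (4 + 2 * (k + 1)),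
                x ≠ y → f x = v → f y = v → (Γ (k + 1)).Adj x y) ∧
              (∀ a b : Fin (4 + 2 * k), (Γ k).Adj a b →
                ∃! e : Sym2 (Fin (4 + 2 * (k + 1))),
                  e ∈ (Γ (k + 1)).edgeSet ∧ Sym2.map f e = s(a, b))) ∧
          Nonempty (G ≃g Γ n) := by
  have hfin : Finite G.Dart := by
    classical
    exact Finite.of_fintype _
  obtain ⟨hp, ⟨γ, hγ⟩, h12, -⟩ := setup G ρ h1 h2 h3 hE hH
  apply iso_of_stk G ρ h1 h2 h3
  apply stk_of hG _ G.Dart (mapOf G ρ h1 h2 h3) γ le_rfl hp hγ _ h12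
  intro d
  obtain ⟨n, hn0, hn6, hn⟩ := hF d
  exact le_trans (IsPeriodicPt.minimalPeriod_le hn0 hn) hn6

include h1 h2 h3 in
/-- the local theorem -/
theorem local_of (hG : ∀ p ∈ necks, Good p.1 p.2)
    (hE : (Fintype.card V : ℤ) - (G.edgeSet.ncard : ℤ) +
      (Nat.card (Quot fun x y : G.Dart => ρ x.symm = y) : ℤ) = 2)
    (hC : ∀ X : Set V, {e : Sym2 V | e ∈ G.edgeSet ∧ (∃ x ∈ e, x ∈ X) ∧ ∃ y ∈ e, y ∉ X}.ncard ≤ 3 →
      X.Subsingleton ∨ Xᶜ.Subsingleton)
    (hV : 4 < Fintype.card V)
    (hH : {s : Set (Sym2 V) | ∃ (u : V) (p : G.Walk u u),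
      p.IsHamiltonianCycle ∧ s = {e : Sym2 V | e ∈ p.edges}}.ncard = 3)
    (d : G.Dart) (hd : minimalPeriod (fun x : G.Dart => ρ x.symm) d ≤ 5) :
    ∃ i : ℕ, 7 ≤ minimalPeriod (fun x : G.Dart => ρ x.symm)
      ((fun x : G.Dart => ρ x.symm)^[i] d).symm := by
  classical
  have hfin : Finite G.Dart := Finite.of_fintype _
  obtain ⟨hp, ⟨γ, hγ⟩, h12, hcard⟩ := setup G ρ h1 h2 h3 hE hH
  set M := mapOf G ρ h1 h2 h3 with hM
  have hne : Nonempty V := by
    have : 0 < Fintype.card V := by omega
    exact Fintype.card_pos_iff.mp this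
  have hdart : ∀ w : V, ∃ d : G.Dart, d.fst = w := by
    intro w
    have : (G.neighborSet w).Nonempty := by
      apply Set.nonempty_of_ncard_ne_zero
      rw [h3]; norm_num
    obtain ⟨z, hz⟩ := this
    exact ⟨⟨(w, z), hz⟩, rfl⟩
  -- darts at the same vertex
  have hsame : ∀ (X : G.Dart → Bool), M.VSet X → ∀ d d' : G.Dart, d'.fst = d.fst → X d' = X d := by
    intro X hX d d' hdd
    have hc : d' = d ∨ d' = ρ d ∨ d' = ρ (ρ d) := by
      by_contra hcon
      push Not at hcon
      obtain ⟨c1, c2, c3⟩ := hcon
      have f1 : (ρ d).fst = d.fst := h1 d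
      have f2 : (ρ (ρ d)).fst = d.fst := (h1 _).trans f1
      have n1 : ρ d ≠ d := h2 d
      have n2 : ρ (ρ d) ≠ ρ d := h2 (ρ d)
      have n4 : ρ (ρ d) ≠ d := by
        intro h
        have h5 : ρ (ρ (ρ d)) = d := M.s3 d
        rw [h] at h5
        exact h2 d h5
      have hS : ({d, ρ d, ρ (ρ d), d'} : Finset G.Dart).card = 4 := by
        rw [Finset.card_insert_of_notMem, Finset.card_insert_of_notMem,
          Finset.card_insert_of_notMem, Finset.card_singleton]
        · simp only [Finset.mem_singleton]; exact fun h => c3 h.symm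
        · simp only [Finset.mem_insert, Finset.mem_singleton]
          rintro (h | h)
          · exact n2 h.symm
          · exact c2 h.symm
        · simp only [Finset.mem_insert, Finset.mem_singleton]
          rintro (h | h | h)
          · exact n1 h.symm
          · exact n4 h.symm
          · exact c1 h.symm
      have hle : ({d, ρ d, ρ (ρ d), d'} : Finset G.Dart).card ≤
          (G.neighborFinset d.fst).card := by
        apply Finset.card_le_card_of_injOn (fun x => x.snd)
        · intro x hx
          simp only [Finset.coe_insert, Finset.coe_singleton, Set.mem_insert_iff,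
            Set.mem_singleton_iff] at hx
          have hxf : x.fst = d.fst := by
            rcases hx with h | h | h | h <;> rw [h] <;> assumption
          simp only [Finset.mem_coe, SimpleGraph.mem_neighborFinset]
          rw [← hxf]
          exact x.adj
        · intro x hx y hy hxy
          simp only [Finset.coe_insert, Finset.coe_singleton, Set.mem_insert_iff,
            Set.mem_singleton_iff] at hx hy
          have hxf : x.fst = d.fst := by
            rcases hx with h | h | h | h <;> rw [h] <;> assumption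
          have hyf : y.fst = d.fst := by
            rcases hy with h | h | h | h <;> rw [h] <;> assumption
          apply SimpleGraph.Dart.ext
          exact Prod.ext (hxf.trans hyf.symm) hxy
      rw [hS] at hle
      have := deg3 G h3 d.fst
      rw [← SimpleGraph.card_neighborFinset_eq_degree] at this
      omega
    rcases hc with h | h | h
    · rw [h]
    · rw [h]; exact hX d
    · rw [h]; exact (hX (ρ d)).trans (hX d)
  have h4 : M.Cyc4 := by
    intro X hX hb
    let Y : Set V := {v | ∃ d : G.Dart, d.fst = v ∧ X d = true}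
    have hYmem : ∀ d : G.Dart, d.fst ∈ Y ↔ X d = true := by
      intro d
      constructor
      · rintro ⟨d', hd', hX'⟩
        rw [← hsame X hX d d' hd']
        exact hX'
      · intro h
        exact ⟨d, rfl, h⟩
    have hcut : {e : Sym2 V | e ∈ G.edgeSet ∧ (∃ x ∈ e, x ∈ Y) ∧ ∃ y ∈ e, y ∉ Y}.ncard ≤ 3 := by
      refine le_trans ?_ hb
      have himg : {e : Sym2 V | e ∈ G.edgeSet ∧ (∃ x ∈ e, x ∈ Y) ∧ ∃ y ∈ e, y ∉ Y} ⊆
          (fun d : G.Dart => d.edge) '' {d : G.Dart | X d = true ∧ X (M.a d) = false} := by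
        rintro e ⟨he, ⟨x, hx, hxY⟩, ⟨y, hy, hyY⟩⟩
        have hxy : x ≠ y := fun h => hyY (h ▸ hxY)
        have hexy : e = s(x, y) := by
          exact ((Sym2.mem_and_mem_iff hxy).1 ⟨hx, hy⟩)
        rw [hexy] at he
        refine ⟨⟨(x, y), he⟩, ⟨?_, ?_⟩, ?_⟩
        · exact (hYmem ⟨(x, y), he⟩).1 hxY
        · have h6 := (hYmem (M.a ⟨(x, y), he⟩)).not.1 hyY
          simpa using h6
        · rw [hexy]; rfl
      refine le_trans (Set.ncard_le_ncard himg (Set.toFinite _)) ?_
      refine le_trans (Set.ncard_image_le (Set.toFinite _)) ?_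
      rw [CMap.bd, ← Nat.card_coe_set_eq]
      exact le_rfl
    rcases hC Y hcut with h | h
    · left
      by_cases hex : ∃ v, X v = true
      · obtain ⟨v, hv⟩ := hex
        refine ⟨v, fun d hd => ?_⟩
        have h7 : d.fst = v.fst := h ((hYmem d).2 hd) ((hYmem v).2 hv)
        by_contra hcon
        push Not at hcon
        obtain ⟨c1, c2, c3⟩ := hcon
        have h8 := hsame (fun x => decide (x = v ∨ x = M.s v ∨ x = M.s (M.s v))) (by
          intro x
          rw [Bool.eq_iff_iff, decide_eq_true_iff, decide_eq_true_iff]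
          constructor
          · rintro (h | h | h)
            · right; right
              have := congrArg (fun z => M.s (M.s z)) h
              simpa only [M.s3] using this
            · left
              have := congrArg (fun z => M.s (M.s z)) h
              simpa only [M.s3] using this
            · right; left
              have := congrArg (fun z => M.s (M.s z)) h
              simpa only [M.s3] using this
          · rintro (h | h | h)
            · right; left; rw [h]
            · right; right; rw [h]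
            · left; rw [h, M.s3]) v d h7
        simp only [true_or, decide_true, decide_eq_true_eq] at h8
        rcases h8 with h9 | h9 | h9
        · exact c1 h9
        · exact c2 h9
        · exact c3 h9
      · push Not at hex
        refine ⟨d, fun x hx => ?_⟩
        exact absurd hx (hex x)
    · right
      by_cases hex : ∃ v, X v = false
      · obtain ⟨v, hv⟩ := hex
        refine ⟨v, fun d hd => ?_⟩
        have hYf : ∀ d : G.Dart, X d = false → d.fst ∈ Yᶜ := by
          intro d hd hmem
          rw [(hYmem d).1 hmem] at hd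
          exact Bool.noConfusion hd
        have h7 : d.fst = v.fst := h (hYf d hd) (hYf v hv)
        have h8 := hsame (fun x => decide (x = v ∨ x = M.s v ∨ x = M.s (M.s v))) (by
          intro x
          rw [Bool.eq_iff_iff, decide_eq_true_iff, decide_eq_true_iff]
          constructor
          · rintro (h | h | h)
            · right; right
              have := congrArg (fun z => M.s (M.s z)) h
              simpa only [M.s3] using this
            · left
              have := congrArg (fun z => M.s (M.s z)) h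
              simpa only [M.s3] using this
            · right; left
              have := congrArg (fun z => M.s (M.s z)) h
              simpa only [M.s3] using this
          · rintro (h | h | h)
            · right; left; rw [h]
            · right; right; rw [h]
            · left; rw [h, M.s3]) v d h7
        simp only [true_or, decide_true, decide_eq_true_eq] at h8
        exact h8
      · push Not at hex
        refine ⟨d, fun x hx => ?_⟩
        exact absurd hx (hex x)
  exact local7_of M hG hp γ hγ h4 (by omega) d hd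

end

end Pool.Agent.Helper17.CT
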