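import Pool.Agent.Helper17.CT.Wheel

set_option autoImplicit false

namespace Pool.Agent.Helper17.CT
open Function

section
variable {D : Type} (M : CMap D)

lemma six_dvd [Finite D] (γ : D → Fin 3) (hT : M.Tri γ) : 6 ∣ Nat.card D := by
  classical
  have : Fintype D := Fintype.ofFinite D
  rw [Nat.card_eq_fintype_card, ← Finset.card_univ]
  have h2 := ct_even_of_invol (Finset.univ : Finset D) M.a (by simp) (fun x _ => M.a2 x)
    (fun x _ => M.a1 x)
  have h3 := ct_three_mul (Finset.univ : Finset D) M.s γ (by simp) M.s3 (fun x _ => hT.prop x) 0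
  omega

lemma contr_card_add [Finite D] (X : D → Bool) :
    Nat.card {d : D // X d = true ∨ X (M.a d) = true} =
      Nat.card {d : D // X d = true} + M.bd X := by
  classical
  have : Fintype D := Fintype.ofFinite D
  have h1 : Nat.card {d : D // X d = true ∨ X (M.a d) = true} =
      ({d : D | X d = true ∨ X (M.a d) = true} : Finset D).card := by
    rw [Nat.card_eq_fintype_card, Fintype.card_subtype]
  have h2 : Nat.card {d : D // X d = true} = ({d : D | X d = true} : Finset D).card := by
    rw [Nat.card_eq_fintype_card, Fintype.card_subtype]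
  have h3 : M.bd X = ({d : D | X d = true ∧ X (M.a d) = false} : Finset D).card := by
    rw [CMap.bd, Nat.card_eq_fintype_card, Fintype.card_subtype]
  have h4 : ({d : D | X d = true ∧ X (M.a d) = false} : Finset D).card =
      ({d : D | X d = false ∧ X (M.a d) = true} : Finset D).card := by
    apply Finset.card_bij (fun d _ => M.a d)
    · intro d hd
      simp only [Finset.mem_filter, Finset.mem_univ, true_and] at hd ⊢
      rw [M.a2]
      exact ⟨hd.2, hd.1⟩
    · intro a _ b _ h
      have := congrArg M.a h
      simpa only [M.a2] using this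
    · intro d hd
      simp only [Finset.mem_filter, Finset.mem_univ, true_and] at hd
      refine ⟨M.a d, ?_, M.a2 d⟩
      simp only [Finset.mem_filter, Finset.mem_univ, true_and]
      rw [M.a2]
      exact ⟨hd.2, hd.1⟩
  rw [h1, h2, h3, h4, ← Finset.card_union_of_disjoint]
  · congr 1
    ext d
    simp only [Finset.mem_filter, Finset.mem_univ, true_and, Finset.mem_union]
    cases h : X d <;> simp
  · rw [Finset.disjoint_filter]
    intro d _ h5 h6
    rw [h5] at h6
    simp at h6

lemma bd_compl [Finite D] (X : D → Bool) : M.bd (fun d => !X d) = M.bd X := by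
  classical
  have e : {d : D // (!X d) = true ∧ (!X (M.a d)) = false} ≃
      {d : D // X d = true ∧ X (M.a d) = false} :=
    { toFun := fun d => ⟨M.a d.1, by
        have h := d.2
        rw [M.a2]
        simpa [and_comm] using h⟩
      invFun := fun d => ⟨M.a d.1, by
        have h := d.2
        rw [M.a2]
        simpa [and_comm] using h⟩
      left_inv := fun d => Subtype.ext (M.a2 d.1)
      right_inv := fun d => Subtype.ext (M.a2 d.1) }
  exact Nat.card_congr e

/-- the class theorem for maps: faces of length at most six -/
theorem stk_of (hG : ∀ p ∈ necks, Good p.1 p.2) : ∀ (n : ℕ) (D : Type) [Finite D] (M : CMap D)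
    (γ : D → Fin 3), Nat.card D ≤ n → M.Planar → M.Tri γ → (∀ d, minimalPeriod M.f d ≤ 6) →
    12 ≤ Nat.card D → M.Stk := by
  intro n
  induction n with
  | zero =>
    intro D _ M γ h _ _ _ h12
    omega
  | succ n ih =>
    intro D _ M γ hn hp hT h6 h12
    have hne : Nonempty D := by
      by_contra hne
      rw [not_nonempty_iff] at hne
      rw [Nat.card_of_isEmpty] at h12
      omega
    have hc3 : M.Con3 := con3_of_tri M γ hT
    have hs : M.Simple := simple_of_con3 M hc3 (by omega)
    -- cyclically 4-edge-connected maps of the class have 12 darts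
    have h12' : ∀ (D' : Type) [Finite D'] (M' : CMap D') (γ' : D' → Fin 3), M'.Planar →
        M'.Tri γ' → M'.Cyc4 → (∀ d, minimalPeriod M'.f d ≤ 6) → Nonempty D' →
        Nat.card D' ≤ 12 := by
      intro D' _ M' γ' hp' hT' h4' h6' hne'
      by_contra hlt
      push Not at hlt
      obtain ⟨d, hd⟩ := small_face M' hp'
      obtain ⟨i, hi⟩ := local7_of M' hG hp' γ' hT' h4' hlt d hd
      have := h6' (M'.a ((M'.f)^[i] d))
      omega
    by_cases h4 : M.Cyc4
    · have := h12' D M γ hp hT h4 h6 hne
      exact stk_base M (by omega) hs
    · obtain ⟨X, hX, h3, ⟨y, hy⟩, hX6, hY6, hcyc⟩ := exists_cyc4 M hc3 h4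
      obtain ⟨M1, hM1⟩ := exists_contr M hp γ hT X hX h3 ⟨y, hy⟩
      have hp1 := contr_planar M hp γ hT X hX h3 M1 hM1
      have hT1 := contr_tri M γ hT X hX h3 M1 hM1
      have h61 : ∀ d, minimalPeriod M1.f d ≤ 6 := fun d =>
        le_trans (contr_period M X M1 hM1 d) (h6 d.1)
      have hcard1 := contr_card_add M X
      rw [h3] at hcard1
      have hne1 : Nonempty {d : D // X d = true ∨ X (M.a d) = true} := by
        by_contra hne1
        rw [not_nonempty_iff] at hne1
        rw [Nat.card_of_isEmpty] at hcard1
        omega
      have hle1 := h12' _ M1 _ hp1 hT1 (hcyc M1 hM1) h61 hne1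
      have hdvd1 := six_dvd M1 _ hT1
      have hX9 : Nat.card {d : D // X d = true} = 9 := by omega
      -- contract the triangle
      set X' : D → Bool := fun d => !X d with hX'
      have hXv : M.VSet X' := fun d => by simp only [hX']; rw [hX d]
      have h3' : M.bd X' = 3 := by rw [hX', bd_compl M X, h3]
      have hXt : ∃ d, X' d = false := by
        by_contra hcon
        push Not at hcon
        have : IsEmpty {d : D // X d = true} := ⟨fun d => hcon d.1 (by simp [hX', d.2])⟩
        rw [Nat.card_of_isEmpty] at hX9
        omega
      obtain ⟨M2, hM2⟩ := exists_contr M hp γ hT X' hXv h3' hXt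
      have hp2 := contr_planar M hp γ hT X' hXv h3' M2 hM2
      have hT2 := contr_tri M γ hT X' hXv h3' M2 hM2
      have h62 : ∀ d, minimalPeriod M2.f d ≤ 6 := fun d =>
        le_trans (contr_period M X' M2 hM2 d) (h6 d.1)
      have hcard2 := contr_card_add M X'
      rw [h3'] at hcard2
      have e1 : Nat.card {d : D // X' d = true} = Nat.card {d : D // X d = false} :=
        Nat.card_congr (Equiv.subtypeEquivRight (fun d => by simp [hX']))
      have e2 : Nat.card {d : D // X' d = false} = Nat.card {d : D // X d = true} :=
        Nat.card_congr (Equiv.subtypeEquivRight (fun d => by simp [hX']))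
      have hsum : Nat.card D = Nat.card {d : D // X d = true} +
          Nat.card {d : D // X d = false} := by
        classical
        have : Fintype D := Fintype.ofFinite D
        rw [Nat.card_eq_fintype_card, Nat.card_eq_fintype_card, Nat.card_eq_fintype_card,
          Fintype.card_subtype, Fintype.card_subtype, ← Finset.card_univ]
        rw [← Finset.card_filter_add_card_filter_not (s := (Finset.univ : Finset D))
          (p := fun d => X d = true)]
        congr 2
        ext d
        simp
      have hdvd2 := six_dvd M2 _ hT2
      have hS2 : M2.Stk := ih _ M2 _ (by omega) hp2 hT2 h62 (by omega)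
      have hs2 : M2.Simple := simple_of_con3 M2 (con3_of_tri M2 _ hT2) (by omega)
      exact stk_step M hs X' hXv h3' (by rw [e2, hX9]) M2 hM2 hs2 hS2

end

end Pool.Agent.Helper17.CT
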