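import Pool.Agent.Helper17.CT.Wheel
import Pool.Agent.Helper11.CT.DataPerm
import Pool.Agent.Helper11.CT.Loopy
import Pool.Agent.Helper16.CT.Cst
import Pool.Agent.Helper76.CT.Enum
import Pool.Agent.Helper79.CT.NoDataCol

set_option autoImplicit false

namespace Pool.Agent.Helper17.CT

lemma piece_s {F : Code} (hF : CodeOK F) (x : ℕ) (h : x < 3 * F.n) :
    (((piece F hF).s ⟨x, h⟩ : Fin (3 * F.n)) : ℕ) = nx x := rfl

/-- the colours at the vertex `v` form one of the six permutations -/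
lemma perm_cases {F : Code} (hF : CodeOK F) (γ : Fin (3 * F.n) → Fin 3)
    (hγ : ∀ x, γ ((piece F hF).s x) ≠ γ x) (g : ℕ → ℕ) (hg : ∀ x : Fin (3 * F.n), g x = (γ x : ℕ))
    (v : ℕ) (hv : v < F.n) :
    (g (3 * v) = 0 ∧ g (3 * v + 1) = 1 ∧ g (3 * v + 2) = 2) ∨
      (g (3 * v) = 0 ∧ g (3 * v + 1) = 2 ∧ g (3 * v + 2) = 1) ∨
      (g (3 * v) = 1 ∧ g (3 * v + 1) = 0 ∧ g (3 * v + 2) = 2) ∨
      (g (3 * v) = 1 ∧ g (3 * v + 1) = 2 ∧ g (3 * v + 2) = 0) ∨
      (g (3 * v) = 2 ∧ g (3 * v + 1) = 0 ∧ g (3 * v + 2) = 1) ∨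
      (g (3 * v) = 2 ∧ g (3 * v + 1) = 1 ∧ g (3 * v + 2) = 0) := by
  have hnx : ∀ x, nx x = 3 * (x / 3) + (x % 3 + 1) % 3 := fun _ => rfl
  have l0 : 3 * v < 3 * F.n := by omega
  have l1 : 3 * v + 1 < 3 * F.n := by omega
  have l2 : 3 * v + 2 < 3 * F.n := by omega
  have s0 : (piece F hF).s ⟨3 * v, l0⟩ = ⟨3 * v + 1, l1⟩ := by
    apply Fin.ext
    show nx (3 * v) = 3 * v + 1
    rw [hnx]; omega
  have s1 : (piece F hF).s ⟨3 * v + 1, l1⟩ = ⟨3 * v + 2, l2⟩ := by
    apply Fin.ext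
    show nx (3 * v + 1) = 3 * v + 2
    rw [hnx]; omega
  have s2 : (piece F hF).s ⟨3 * v + 2, l2⟩ = ⟨3 * v, l0⟩ := by
    apply Fin.ext
    show nx (3 * v + 2) = 3 * v
    rw [hnx]; omega
  have h0 := hγ ⟨3 * v, l0⟩
  have h1 := hγ ⟨3 * v + 1, l1⟩
  have h2 := hγ ⟨3 * v + 2, l2⟩
  rw [s0] at h0
  rw [s1] at h1
  rw [s2] at h2
  have g0 := hg ⟨3 * v, l0⟩
  have g1 := hg ⟨3 * v + 1, l1⟩
  have g2 := hg ⟨3 * v + 2, l2⟩
  simp only at g0 g1 g2
  rw [g0, g1, g2]
  generalize γ ⟨3 * v, l0⟩ = a at *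
  generalize γ ⟨3 * v + 1, l1⟩ = b at *
  generalize γ ⟨3 * v + 2, l2⟩ = c at *
  have ha := a.2
  have hb := b.2
  have hc := c.2
  have h0' : (b : ℕ) ≠ a := fun h => h0 (Fin.ext h)
  have h1' : (c : ℕ) ≠ b := fun h => h1 (Fin.ext h)
  have h2' : (a : ℕ) ≠ c := fun h => h2 (Fin.ext h)
  omega

/-- the wheel is excluded as soon as the check succeeds -/
theorem no_data (F : Code) (S : Tri') (Ct : Cert) (T : TT) (hF : CodeOK F)
    (hS : Tri'.all (okSy F) S = true) (hC : okCert Ct F.k = true) (hG : runG F S Ct T = true)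
    (hE : enum F (okG F S T) (Nat.pred F.n) 1 36 = true) (D : Data (piece F hF)) : False := by
  have hn := hF.n2
  -- relabel the colours
  have l0 : 0 < 3 * F.n := by omega
  have l1 : 1 < 3 * F.n := by omega
  have l2 : 2 < 3 * F.n := by omega
  have hnx : ∀ x, nx x = 3 * (x / 3) + (x % 3 + 1) % 3 := fun _ => rfl
  obtain ⟨D', h0, h1, h2⟩ : ∃ D' : Data (piece F hF), D'.γ ⟨0, l0⟩ = 0 ∧ D'.γ ⟨1, l1⟩ = 1 ∧
      D'.γ ⟨2, l2⟩ = 2 := by
    have s0 : (piece F hF).s ⟨0, l0⟩ = ⟨1, l1⟩ := by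
      apply Fin.ext
      rw [piece_s, hnx]
    have s1 : (piece F hF).s ⟨1, l1⟩ = ⟨2, l2⟩ := by
      apply Fin.ext
      rw [piece_s, hnx]
    have s2 : (piece F hF).s ⟨2, l2⟩ = ⟨0, l0⟩ := by
      apply Fin.ext
      rw [piece_s, hnx]
    have h0 := D.γs ⟨0, l0⟩
    have h1 := D.γs ⟨1, l1⟩
    have h2 := D.γs ⟨2, l2⟩
    rw [s0] at h0
    rw [s1] at h1
    rw [s2] at h2
    have key : ∀ a b c : Fin 3, b ≠ a → c ≠ b → a ≠ c →
        ∃ σ : Equiv.Perm (Fin 3), σ a = 0 ∧ σ b = 1 ∧ σ c = 2 := by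
      decide
    obtain ⟨σ, e0, e1, e2⟩ := key _ _ _ h0 h1 h2
    obtain ⟨D', hD'⟩ := data_perm D σ
    exact ⟨D', by rw [hD', e0], by rw [hD', e1], by rw [hD', e2]⟩
  set g : ℕ → ℕ := fun x => if h : x < 3 * F.n then (D'.γ ⟨x, h⟩ : ℕ) else 0 with hg
  have hgx : ∀ x : Fin (3 * F.n), g x = (D'.γ x : ℕ) := by
    intro x
    simp only [hg, x.2, dite_true]
  obtain ⟨G, hG1, hG2⟩ := enum_sound F hF (okG F S T) hE g
    (fun v hv => perm_cases hF D'.γ D'.γs g hgx v hv)
    (by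
      intro x hx
      have h3 := hgx ⟨x, hx⟩
      have h4 := hgx ⟨d6 F.E x, hF.e_lt hx⟩
      simp only at h3 h4
      rw [h3, h4]
      by_cases hp : d4 F.P x = 0
      · have h5 := D'.γe ⟨x, hx⟩ ((port_iff hF ⟨x, hx⟩).2 hp)
        exact congrArg Fin.val h5
      · have h5 : (⟨d6 F.E x, hF.e_lt hx⟩ : Fin (3 * F.n)) = ⟨x, hx⟩ :=
          Fin.ext (hF.pt x hx hp).2.1
        rw [h5])
    ⟨by have := hgx ⟨0, l0⟩; simp only at this; rw [this, h0]; rfl,
      by have := hgx ⟨1, l1⟩; simp only at this; rw [this, h1]; rfl,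
      by have := hgx ⟨2, l2⟩; simp only at this; rw [this, h2]; rfl⟩
  have hGc : ∀ x : Fin (3 * F.n), d2 G x = (D'.γ x : ℕ) := fun x => by
    rw [hG2 x x.2, hgx]
  have hGi : ∀ (i : Fin 3) (x : Fin (3 * F.n)),
      decide (D'.γ x ≠ i) = true ↔ d2 G x ≠ (i : ℕ) := by
    intro i x
    rw [decide_eq_true_iff, hGc x]
    constructor
    · intro h h'
      exact h (Fin.ext h')
    · intro h h'
      exact h (by rw [h'])
  have hokG : okG F S T G = cond (Nat.beq F.k 0)
      (loopy F G 0 || (loopy F G 1 || loopy F G 2))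
      (cond (cstG F G F.k)
        (match d2 G (d6 F.Q 0) with
          | 0 => okCst F S G 0 1 2
          | 1 => okCst F S G 1 0 2
          | _ => okCst F S G 2 0 1)
        (okCol F S T G)) := rfl
  rw [hokG] at hG1
  by_cases hk : F.k = 0
  · rw [hk] at hG1
    simp only [Nat.beq_refl, cond_true, Bool.or_eq_true] at hG1
    have hl : ∀ i : Fin 3, loopy F G i = false := by
      intro i
      exact not_loopy F hF _ _ (D'.ham i) (fun j => absurd j.2 (by omega)) G i (hGi i)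
    have e0 := hl 0
    have e1 := hl 1
    have e2 := hl 2
    simp only [Fin.val_zero, Fin.val_one, Fin.val_two] at e0 e1 e2
    rcases hG1 with h | h | h
    · rw [e0] at h; exact Bool.noConfusion h
    · rw [e1] at h; exact Bool.noConfusion h
    · rw [e2] at h; exact Bool.noConfusion h
  · have hkb : Nat.beq F.k 0 = false := by
      rw [← Bool.not_eq_true, Nat.beq_eq]; exact hk
    rw [hkb] at hG1
    simp only [cond_false] at hG1
    have hQ : ∀ j : Fin F.k, d2 G (d6 F.Q j) = (D'.γ ((piece F hF).q j) : ℕ) := fun j =>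
      hGc ((piece F hF).q j)
    have hcst : ∀ f, f ≤ F.k → (cstG F G f = true ↔ ∀ j < f, d2 G (d6 F.Q j) = d2 G (d6 F.Q 0)) := by
      intro f
      induction f with
      | zero => intro _; simp [cstG]
      | succ f ih =>
        intro hf
        have e : cstG F G (f + 1) = (Nat.beq (d2 G (d6 F.Q f)) (d2 G (d6 F.Q 0)) && cstG F G f) :=
          rfl
        rw [e, Bool.and_eq_true, Nat.beq_eq, ih (by omega)]
        constructor
        · rintro ⟨h1, h2⟩ j hj
          rcases Nat.lt_succ_iff_lt_or_eq.mp hj with h | h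
          · exact h2 j h
          · rw [h]; exact h1
        · intro h
          exact ⟨h f (Nat.lt_succ_self f), fun j hj => h j (Nat.lt_succ_of_lt hj)⟩
    by_cases hc : cstG F G F.k = true
    · rw [hc] at hG1
      simp only [cond_true] at hG1
      have hc' := (hcst F.k le_rfl).1 hc
      have hne : ∀ j j', D'.γ ((piece F hF).q j) = D'.γ ((piece F hF).q j') := by
        intro j j'
        apply Fin.ext
        rw [← hQ j, ← hQ j', hc' j j.2, hc' j' j'.2]
      have hlt : d2 G (d6 F.Q 0) < 3 := by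
        have := hQ ⟨0, by omega⟩
        simp only at this
        rw [this]
        exact Fin.is_lt _
      have h3 : d2 G (d6 F.Q 0) = 0 ∨ d2 G (d6 F.Q 0) = 1 ∨ d2 G (d6 F.Q 0) = 2 := by omega
      rcases h3 with h | h | h
      · rw [h] at hG1
        exact no_data_cst F hF S hS D' hk hne G hGc 0 1 2 h (by omega) hG1
      · rw [h] at hG1
        exact no_data_cst F hF S hS D' hk hne G hGc 1 0 2 h (by omega) hG1
      · rw [h] at hG1
        exact no_data_cst F hF S hS D' hk hne G hGc 2 0 1 h (by omega) hG1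
    · have hc2 : cstG F G F.k = false := by
        rw [← Bool.not_eq_true]; exact hc
      rw [hc2] at hG1
      simp only [cond_false] at hG1
      have hne : ∃ j j', D'.γ ((piece F hF).q j) ≠ D'.γ ((piece F hF).q j') := by
        by_contra hcon
        push Not at hcon
        apply hc
        rw [hcst F.k le_rfl]
        intro j hj
        have e1 := hQ ⟨j, hj⟩
        have e2 := hQ ⟨0, by omega⟩
        simp only at e1 e2
        rw [e1, e2, hcon ⟨j, hj⟩ ⟨0, by omega⟩]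
      exact no_data_col_of cands_sound F hF S hS Ct hC T hG D' hne G hGc hG1

theorem good_mk {F : Code} (S : Tri') (Ct : Cert) (T : TT) (c : ℕ) (ns : List ℕ)
    (hc : F.c = c) (hns : F.ns = ns) (hF : okCode F = true) (hI : okIdx F = true)
    (hS : Tri'.all (okSy F) S = true) (hC : okCert Ct F.k = true) (hG : runG F S Ct T = true)
    (hE : enum F (okG F S T) (Nat.pred F.n) 1 36 = true) : Good c ns :=
  ⟨F, CodeOK.of hF, hc, hns, hI, no_data F S Ct T (CodeOK.of hF) hS hC hG hE⟩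

end Pool.Agent.Helper17.CT
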