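import Pool.Agent.Helper17.CT.Check

set_option autoImplicit false

/-!
The piece of a code, and the exact statements for the soundness of the checker.
-/

namespace Pool.Agent.Helper17.CT

lemma nx_lt {n x : ℕ} (h : x < 3 * n) : nx x < 3 * n := by
  have h1 : nx x = 3 * (x / 3) + (x % 3 + 1) % 3 := rfl
  omega

lemma allN_iff (g : ℕ → Bool) (n : ℕ) : allN g n = true ↔ ∀ i < n, g i = true := by
  induction n with
  | zero => simp [allN]
  | succ n ih =>
    have h : allN g (n + 1) = (g n && allN g n) := rfl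
    rw [h, Bool.and_eq_true, ih]
    constructor
    · rintro ⟨h1, h2⟩ i hi
      rcases Nat.lt_succ_iff_lt_or_eq.mp hi with h | h
      · exact h2 i h
      · rw [h]; exact h1
    · intro h
      exact ⟨h n (Nat.lt_succ_self n), fun i hi => h i (Nat.lt_succ_of_lt hi)⟩

/-- what `okCode` says -/
structure CodeOK (F : Code) : Prop where
  n2 : 1 < F.n
  np : ∀ x < 3 * F.n, d4 F.P x = 0 → d6 F.E x < 3 * F.n ∧ d6 F.E (d6 F.E x) = x ∧ d6 F.E x ≠ x ∧
    d4 F.P (d6 F.E x) = 0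
  pt : ∀ x < 3 * F.n, d4 F.P x ≠ 0 → d6 F.Q (d4 F.P x - 1) = x ∧ d6 F.E x = x ∧ d4 F.P x ≤ F.k
  q : ∀ j < F.k, d6 F.Q j < 3 * F.n ∧ d4 F.P (d6 F.Q j) = j + 1

lemma CodeOK.of {F : Code} (h : okCode F = true) : CodeOK F := by
  have h0 : okCode F = (Nat.blt 1 F.n &&
    ((allN (fun x => cond (Nat.beq (d4 F.P x) 0)
      (Nat.blt (d6 F.E x) (3 * F.n) && (Nat.beq (d6 F.E (d6 F.E x)) x &&
        (!(Nat.beq (d6 F.E x) x) && Nat.beq (d4 F.P (d6 F.E x)) 0)))
      (Nat.beq (d6 F.Q (Nat.pred (d4 F.P x))) x &&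
        (Nat.beq (d6 F.E x) x && Nat.ble (d4 F.P x) F.k))) (3 * F.n)) &&
    (allN (fun j => Nat.blt (d6 F.Q j) (3 * F.n) &&
      Nat.beq (d4 F.P (d6 F.Q j)) (j + 1)) F.k))) := rfl
  rw [h0] at h
  simp only [Bool.and_eq_true, allN_iff] at h
  obtain ⟨h1, h2, h3⟩ := h
  refine ⟨?_, ?_, ?_, ?_⟩
  · have h5 : Nat.ble 2 F.n = true := h1
    rw [Nat.ble_eq] at h5
    omega
  · intro x hx h4
    have h5 := h2 x hx
    rw [h4] at h5
    simp only [Nat.beq_refl, cond_true, Bool.and_eq_true, Bool.not_eq_true', Nat.beq_eq] at h5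
    obtain ⟨h6, h7, h8, h9⟩ := h5
    refine ⟨Nat.le_of_ble_eq_true h6, h7, ?_, h9⟩
    intro h10
    rw [h10] at h8
    simp at h8
  · intro x hx h4
    have h5 := h2 x hx
    have h6 : Nat.beq (d4 F.P x) 0 = false := by
      rw [← Bool.not_eq_true, Nat.beq_eq]; exact h4
    rw [h6] at h5
    simp only [cond_false, Bool.and_eq_true, Nat.beq_eq, Nat.ble_eq, Nat.pred_eq_sub_one] at h5
    exact h5
  · intro j hj
    have h4 := h3 j hj
    simp only [Nat.beq_eq] at h4
    exact ⟨Nat.le_of_ble_eq_true h4.1, h4.2⟩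

lemma CodeOK.e_lt {F : Code} (h : CodeOK F) {x : ℕ} (hx : x < 3 * F.n) : d6 F.E x < 3 * F.n := by
  by_cases h1 : d4 F.P x = 0
  · exact (h.np x hx h1).1
  · rw [(h.pt x hx h1).2.1]; exact hx

/-- the piece of a code -/
def piece (F : Code) (h : CodeOK F) : Inner (Fin (3 * F.n)) F.k where
  s := fun x => ⟨nx x, nx_lt x.2⟩
  e := fun x => ⟨d6 F.E x, h.e_lt x.2⟩
  q := fun j => ⟨d6 F.Q j, (h.q j j.2).1⟩
  s3 := by
    rintro ⟨x, hx⟩
    apply Fin.ext
    have h1 : ∀ x, nx x = 3 * (x / 3) + (x % 3 + 1) % 3 := fun _ => rfl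
    simp only [h1]
    omega
  s1 := by
    rintro ⟨x, hx⟩ h2
    have h3 := congrArg Fin.val h2
    have h1 : ∀ x, nx x = 3 * (x / 3) + (x % 3 + 1) % 3 := fun _ => rfl
    simp only [h1] at h3
    omega
  e2 := by
    intro x hx
    have h1 : d4 F.P x = 0 := by
      by_contra h1
      obtain ⟨h2, h3, h4⟩ := h.pt x x.2 h1
      exact hx ⟨d4 F.P x - 1, by omega⟩ (Fin.ext h2.symm)
    exact Fin.ext (h.np x x.2 h1).2.1
  e1 := by
    intro x hx h5
    have h1 : d4 F.P x = 0 := by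
      by_contra h1
      obtain ⟨h2, h3, h4⟩ := h.pt x x.2 h1
      exact hx ⟨d4 F.P x - 1, by omega⟩ (Fin.ext h2.symm)
    exact (h.np x x.2 h1).2.2.1 (congrArg Fin.val h5)
  eq := by
    intro x hx j h5
    have h1 : d4 F.P x = 0 := by
      by_contra h1
      obtain ⟨h2, h3, h4⟩ := h.pt x x.2 h1
      exact hx ⟨d4 F.P x - 1, by omega⟩ (Fin.ext h2.symm)
    have h2 := (h.np x x.2 h1).2.2.2
    have h3 : d6 F.E x = d6 F.Q j := congrArg Fin.val h5
    rw [h3, (h.q j j.2).2] at h2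
    omega
  qi := by
    intro i j hij
    have h1 : d6 F.Q i = d6 F.Q j := congrArg Fin.val hij
    have h2 := (h.q i i.2).2
    rw [h1, (h.q j j.2).2] at h2
    exact Fin.ext (by omega)

lemma port_iff {F : Code} (h : CodeOK F) (x : Fin (3 * F.n)) :
    (∀ j, x ≠ (piece F h).q j) ↔ d4 F.P x = 0 := by
  constructor
  · intro hx
    by_contra h1
    obtain ⟨h2, h3, h4⟩ := h.pt x x.2 h1
    exact hx ⟨d4 F.P x - 1, by omega⟩ (Fin.ext h2.symm)
  · intro h1 j h2
    have h3 : (x : ℕ) = d6 F.Q j := congrArg Fin.val h2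
    rw [h3, (h.q j j.2).2] at h1
    omega

/-- connection inside the used darts `t` of the piece, not using the pairing -/
def Cn {I : Type} {k : ℕ} (F : Inner I k) (t : I → Bool) : I → I → Prop :=
  Relation.ReflTransGen (StepF F t id)

/-- `(m, cov)` describes the components of the path system `t` -/
structure TrSpec (F : Code) (h : CodeOK F) (t : Fin (3 * F.n) → Bool) (m cov : ℕ) : Prop where
  lt : ∀ j : Fin F.k, d4 m j < F.k
  inv : ∀ j : Fin F.k, d4 m (d4 m j) = j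
  use : ∀ j : Fin F.k, t ((piece F h).q j) = true ↔ d4 m j ≠ j
  con : ∀ j i : Fin F.k, (i : ℕ) = d4 m j → t ((piece F h).q j) = true →
    Cn (piece F h) t ((piece F h).q j) ((piece F h).q i)
  uni : ∀ i j : Fin F.k, t ((piece F h).q i) = true →
    Cn (piece F h) t ((piece F h).q i) ((piece F h).q j) → (j : ℕ) = i ∨ (j : ℕ) = d4 m i
  cv : ∀ x, t x = true →
    (tb cov (x / 3) = true ↔ ∃ j, t ((piece F h).q j) = true ∧ Cn (piece F h) t ((piece F h).q j) x)
  bound : cov < 2 ^ F.n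

/-- `t` is a set of darts, closed under the edges, that omits exactly one dart at each vertex -/
structure FacF {I : Type} {k : ℕ} (F : Inner I k) (t : I → Bool) : Prop where
  ecl : ∀ x, (∀ j, x ≠ F.q j) → t (F.e x) = t x
  one : ∀ x, One (t x) (t (F.s x)) (t (F.s (F.s x)))

/-- look up the value of the state `(b, e)` in the table -/
def look (b : ℕ → ℕ) (e : ℕ → Bool) : ℕ → ℕ → TT → Option ℕ
  | 0, _, .leaf w => some w
  | 0, _, _ => none
  | f + 1, p, T =>
    if b p = p then look b e f (p + 1) T.u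
    else if p < b p then look b e f (p + 1) T.o
    else if e p = true then look b e f (p + 1) T.s
    else look b e f (p + 1) T.d

/-- a non-crossing pairing -/
structure NC {k : ℕ} (b : Fin k → Fin k) : Prop where
  inv : ∀ j, b (b j) = j
  nc : ∀ i j l m : Fin k, i < j → j < l → l < m → b i = l → b j = m → False

/-- `B` is a code of `b`, `U` of the set of used ports -/
def CodeB {k : ℕ} (b : Fin k → Fin k) (B : ℕ) : Prop := ∀ j : Fin k, d4 B j = b j
def CodeU {k : ℕ} (b : Fin k → Fin k) (U : ℕ) : Prop :=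
  U < 2 ^ k ∧ ∀ j : Fin k, tb U j = true ↔ b j ≠ j

/-- extension of a pairing to all naturals -/
def extB {k : ℕ} (b : Fin k → Fin k) (p : ℕ) : ℕ := if h : p < k then b ⟨p, h⟩ else p
def extE {k : ℕ} (e : Fin k → Bool) (p : ℕ) : Bool := if h : p < k then e ⟨p, h⟩ else false

/-- the bit set of the certificate items compatible with the state `(b, ε)` -/
def ItemSet {k : ℕ} (Ct : Cert) (b : Fin k → Fin k) (ε : Fin k → Bool) (L : ℕ) : Prop :=
  ∀ i, L.testBit i = true ↔ i < 3 * Ct.B ∧ ∀ p : Fin k,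
    ((getN (zipN (usOf Ct.B) Ct.K1 Ct.K2) p).testBit i = true ↔ b p ≠ p) ∧
    (b p ≠ p → ((getN (zipN (xsOf Ct.B) Ct.K1 Ct.K2) p).testBit i =
      (getN (zipN (xsOf Ct.B) Ct.K1 Ct.K2) (b p)).testBit i ↔ ε p = true))

end Pool.Agent.Helper17.CT
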